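import Mathlib
import Pool.Agent.Lib.MP_6383d0_co.Kim.Interfaces

/-!
# MP_6383d0_co / Kim: module PR
-/

namespace Pool.Agent.Lib.MP_6383d0_co.Kim.H64

open Finset

section

variable {α : Type} [Fintype α] {P : ℕ}

theorem ncard_all : (Set.univ : Set (α → Fin P)).ncard = P ^ Fintype.card α := by
  classical
  rw [Set.ncard_univ, Nat.card_fun, Nat.card_eq_fintype_card, Nat.card_eq_fintype_card,
    Fintype.card_fin]

theorem pr_nonneg (E : (α → Fin P) → Prop) : 0 ≤ pr P E := by
  unfold pr
  positivity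

theorem pr_mono {E E' : (α → Fin P) → Prop} (h : ∀ b, E b → E' b) : pr P E ≤ pr P E' := by
  unfold pr
  gcongr
  · exact Set.toFinite _
  · exact h _

theorem pr_true (hP : 0 < P) : pr P (fun _ : α → Fin P => True) = 1 := by
  unfold pr
  rw [Set.ofPred_true, ncard_all]
  have : (0 : ℝ) < (P : ℝ) ^ Fintype.card α := by positivity
  push_cast
  exact div_self this.ne'

theorem pr_le_one (hP : 0 < P) (E : (α → Fin P) → Prop) : pr P E ≤ 1 := by
  rw [← pr_true (α := α) hP]
  exact pr_mono (fun _ _ => trivial)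

theorem pr_false : pr P (fun _ : α → Fin P => False) = 0 := by
  unfold pr
  simp

theorem pr_or (E E' : (α → Fin P) → Prop) :
    pr P (fun b => E b ∨ E' b) ≤ pr P E + pr P E' := by
  unfold pr
  rw [← add_div]
  gcongr
  have : {f : α → Fin P | E f ∨ E' f} = {f | E f} ∪ {f | E' f} := rfl
  rw [this]
  exact_mod_cast Set.ncard_union_le _ _

theorem pr_exists {ι : Type} (s : Finset ι) (E : ι → (α → Fin P) → Prop) :
    pr P (fun b => ∃ i ∈ s, E i b) ≤ ∑ i ∈ s, pr P (E i) := by
  classical
  induction s using Finset.induction_on with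
  | empty =>
    simp only [Finset.notMem_empty, false_and, exists_false, Finset.sum_empty]
    rw [pr_false]
  | insert a s ha ih =>
    rw [Finset.sum_insert ha]
    refine le_trans (pr_mono (E' := fun b => E a b ∨ ∃ i ∈ s, E i b) ?_) ?_
    · rintro b ⟨i, hi, hE⟩
      rcases Finset.mem_insert.1 hi with rfl | hi
      · exact Or.inl hE
      · exact Or.inr ⟨i, hi, hE⟩
    · exact le_trans (pr_or _ _) (by gcongr)

theorem pr_box (hP : 0 < P) (A : Finset α) (C : α → Finset (Fin P)) :
    pr P (fun b => ∀ a ∈ A, b a ∈ C a) = ∏ a ∈ A, (((C a).card : ℝ) / P) := by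
  classical
  have hset : {f : α → Fin P | ∀ a ∈ A, f a ∈ C a} =
      ↑(Fintype.piFinset (fun a => if a ∈ A then C a else univ)) := by
    ext f
    simp only [Set.mem_ofPred_eq, Finset.mem_coe, Fintype.mem_piFinset]
    refine forall_congr' fun a => ?_
    by_cases h : a ∈ A <;> simp [h]
  have hP' : (P : ℝ) ≠ 0 := by positivity
  unfold pr
  rw [hset, Set.ncard_coe_finset, Fintype.card_piFinset]
  push_cast
  have h1 : ∏ a ∈ A, (((C a).card : ℝ) / P) = ∏ a : α, (if a ∈ A then ((C a).card : ℝ) / P else 1) := by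
    rw [Finset.prod_ite_mem, Finset.univ_inter]
  rw [h1]
  have h2 : (P : ℝ) ^ Fintype.card α = ∏ _a : α, (P : ℝ) := by
    rw [Finset.prod_const, Finset.card_univ]
  rw [h2, ← Finset.prod_div_distrib]
  refine Finset.prod_congr rfl fun a _ => ?_
  by_cases h : a ∈ A
  · simp [h]
  · simp [h, hP']

theorem pr_zero (hP : 0 < P) (A : Finset α) :
    pr P (fun b : α → Fin P => ∀ a ∈ A, (b a : ℕ) = 0) = (1 / (P : ℝ)) ^ A.card := by
  have h := pr_box hP A (fun _ => {(⟨0, hP⟩ : Fin P)})
  simp only [Finset.mem_singleton, Finset.card_singleton, Nat.cast_one, Finset.prod_const] at h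
  rw [← h]
  congr 1
  funext b
  refine propext (forall₂_congr fun a _ => ?_)
  rw [Fin.ext_iff]

theorem pr_exists_not (hP : 0 < P) (E : (α → Fin P) → Prop) (h : pr P E < 1) : ∃ b, ¬ E b := by
  by_contra hc
  push Not at hc
  have : pr P E = 1 := by
    rw [← pr_true (α := α) hP]
    congr 1
    funext b
    exact propext ⟨fun _ => trivial, fun _ => hc b⟩
  linarith

end

theorem pr_all : PR_S := by
  intro α _ P hP
  exact ⟨fun E => ⟨pr_nonneg E, pr_le_one hP E⟩, fun E E' h => pr_mono h,
    fun ι s E => pr_exists s E, fun A C => pr_box hP A C, fun A => pr_zero hP A,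
    fun E h => pr_exists_not hP E h⟩

end Pool.Agent.Lib.MP_6383d0_co.Kim.H64
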