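import Mathlib
import Pool.Agent.Lib.MP_6383d0_co.Kim.H64.PR

/-!
# MP_6383d0_co / Kim: modules CHOOSE, TRANS
-/

namespace Pool.Agent.Lib.MP_6383d0_co.Kim.H64

open Finset

theorem choose : CHOOSE_S := by
  intro n k hk
  have h1 : (n.choose k : ℝ) ≤ (n : ℝ) ^ k / (k.factorial : ℝ) := Nat.choose_le_pow_div k n
  have h2 : (k : ℝ) ^ k / (k.factorial : ℝ) ≤ Real.exp k :=
    Real.pow_div_factorial_le_exp (k : ℝ) (by positivity) k
  have hk' : (0 : ℝ) < k := by exact_mod_cast hk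
  have hf : (0 : ℝ) < (k.factorial : ℝ) := by positivity
  refine h1.trans ?_
  rw [div_pow, mul_pow, ← Real.exp_nat_mul, mul_one]
  have hkk : (0 : ℝ) < (k : ℝ) ^ k := by positivity
  rw [div_le_div_iff₀ hf hkk]
  rw [div_le_iff₀ hf] at h2
  nlinarith [h2, pow_nonneg (Nat.cast_nonneg n : (0 : ℝ) ≤ (n : ℝ)) k]

theorem tr_tr {N P : ℕ} (b : Fin N × Fin N → Fin P) : tr (tr b) = b := by
  funext q
  rfl

theorem trans : TRANS_S := by
  intro N P E
  unfold Kim.pr
  congr 2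
  have : {f : Fin N × Fin N → Fin P | E f} = tr '' {f : Fin N × Fin N → Fin P | E (tr f)} := by
    ext f
    constructor
    · intro hf
      refine ⟨tr f, ?_, tr_tr f⟩
      change E (tr (tr f))
      rwa [tr_tr]
    · rintro ⟨g, hg, rfl⟩
      exact hg
  rw [this, Set.ncard_image_of_injective]
  intro a b h
  rw [← tr_tr a, h, tr_tr]

end Pool.Agent.Lib.MP_6383d0_co.Kim.H64
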