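import Mathlib
import Pool.Agent.Lib.MP_6383d0_co.Kim.H64.Small

/-!
# MP_6383d0_co / Kim: module GAM
-/

namespace Pool.Agent.Lib.MP_6383d0_co.Kim.H64

open Finset Filter

/-- Powers of two beat polynomials. -/
theorem ev_pow (C k : ℕ) : ∀ᶠ j : ℕ in atTop, C * j ^ k ≤ 2 ^ j := by
  have h := tendsto_pow_const_div_const_pow_of_one_lt k (one_lt_two : (1 : ℝ) < 2)
  have hpos : (0 : ℝ) < 1 / ((C : ℝ) + 1) := by positivity
  filter_upwards [h.eventually (gt_mem_nhds hpos)] with j hj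
  rw [div_lt_div_iff₀ (by positivity) (by positivity), one_mul] at hj
  have h0 : (0 : ℝ) ≤ (j : ℝ) ^ k := by positivity
  have : ((C * j ^ k : ℕ) : ℝ) ≤ ((2 ^ j : ℕ) : ℝ) := by
    push_cast
    nlinarith
  exact_mod_cast this

theorem gam_a {N r T : ℕ} (hN : 0 < N) :
    Kim.pr N (fun col : Fin N × Fin r → Fin N =>
      ∃ y, T ≤ (univ.filter (fun v => col v = y)).card) ≤
      N * (((N * r).choose T : ℝ) * (1 / (N : ℝ)) ^ T) := by
  classical
  have hsub : Kim.pr N (fun col : Fin N × Fin r → Fin N =>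
      ∃ y, T ≤ (univ.filter (fun v => col v = y)).card) ≤
      Kim.pr N (fun col : Fin N × Fin r → Fin N =>
        ∃ q ∈ (univ : Finset (Fin N)) ×ˢ powersetCard T (univ : Finset (Fin N × Fin r)),
          ∀ v ∈ q.2, col v ∈ ({q.1} : Finset (Fin N))) := by
    refine pr_mono fun col h => ?_
    obtain ⟨y, hy⟩ := h
    obtain ⟨S, hS, hSc⟩ := exists_subset_card_eq hy
    refine ⟨(y, S), mem_product.2 ⟨mem_univ _, mem_powersetCard.2 ⟨subset_univ _, hSc⟩⟩, ?_⟩
    intro v hv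
    exact mem_singleton.2 (mem_filter.1 (hS hv)).2
  refine hsub.trans ((pr_exists _ _).trans ?_)
  have : ∀ q ∈ (univ : Finset (Fin N)) ×ˢ powersetCard T (univ : Finset (Fin N × Fin r)),
      Kim.pr N (fun col : Fin N × Fin r → Fin N => ∀ v ∈ q.2, col v ∈ ({q.1} : Finset (Fin N))) =
        (1 / (N : ℝ)) ^ T := by
    intro q hq
    have h1 := pr_box hN q.2 (fun _ => ({q.1} : Finset (Fin N)))
    rw [h1]
    simp only [card_singleton, Nat.cast_one, prod_const]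
    rw [(mem_powersetCard.1 (mem_product.1 hq).2).2]
  rw [sum_congr rfl this, sum_const, card_product, card_univ, card_powersetCard, card_univ,
    Fintype.card_prod, Fintype.card_fin, Fintype.card_fin, nsmul_eq_mul]
  push_cast
  apply le_of_eq
  ring

theorem gam_b {N r m : ℕ} (hN : 0 < N) (hm : m ≤ N) :
    Kim.pr N (fun col : Fin N × Fin r → Fin N =>
      ∃ I : Finset (Fin N × Fin r), I.card = 3 * m ∧ (I.image Prod.fst).card ≤ m ∧
        (I.image col).card ≤ m) ≤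
      (N.choose m : ℝ) ^ 2 * (((m * r).choose (3 * m) : ℝ) * ((m : ℝ) / N) ^ (3 * m)) := by
  classical
  have hsub : Kim.pr N (fun col : Fin N × Fin r → Fin N =>
      ∃ I : Finset (Fin N × Fin r), I.card = 3 * m ∧ (I.image Prod.fst).card ≤ m ∧
        (I.image col).card ≤ m) ≤
      Kim.pr N (fun col : Fin N × Fin r → Fin N =>
        ∃ q ∈ powersetCard m (univ : Finset (Fin N)) ×ˢ powersetCard m (univ : Finset (Fin N)),
          ∃ I ∈ powersetCard (3 * m) (q.1 ×ˢ (univ : Finset (Fin r))),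
            ∀ v ∈ I, col v ∈ q.2) := by
    refine pr_mono fun col h => ?_
    obtain ⟨I, hI, h1, h2⟩ := h
    have hmN : m ≤ Fintype.card (Fin N) := by rwa [Fintype.card_fin]
    obtain ⟨X, hX, hXc⟩ := exists_superset_card_eq h1 hmN
    obtain ⟨C, hC, hCc⟩ := exists_superset_card_eq h2 hmN
    refine ⟨(X, C), mem_product.2 ⟨mem_powersetCard.2 ⟨subset_univ _, hXc⟩,
      mem_powersetCard.2 ⟨subset_univ _, hCc⟩⟩, I, mem_powersetCard.2 ⟨?_, hI⟩, ?_⟩
    · intro v hv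
      exact mem_product.2 ⟨hX (mem_image_of_mem _ hv), mem_univ _⟩
    · intro v hv
      exact hC (mem_image_of_mem _ hv)
  refine hsub.trans ((pr_exists _ _).trans ?_)
  have : ∀ q ∈ powersetCard m (univ : Finset (Fin N)) ×ˢ powersetCard m (univ : Finset (Fin N)),
      Kim.pr N (fun col : Fin N × Fin r → Fin N =>
        ∃ I ∈ powersetCard (3 * m) (q.1 ×ˢ (univ : Finset (Fin r))), ∀ v ∈ I, col v ∈ q.2) ≤
      ((m * r).choose (3 * m) : ℝ) * ((m : ℝ) / N) ^ (3 * m) := by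
    intro q hq
    have hq1 := (mem_powersetCard.1 (mem_product.1 hq).1).2
    have hq2 := (mem_powersetCard.1 (mem_product.1 hq).2).2
    refine (pr_exists _ _).trans ?_
    have h1 : ∀ I ∈ powersetCard (3 * m) (q.1 ×ˢ (univ : Finset (Fin r))),
        Kim.pr N (fun col : Fin N × Fin r → Fin N => ∀ v ∈ I, col v ∈ q.2) =
          ((m : ℝ) / N) ^ (3 * m) := by
      intro I hI
      rw [pr_box hN I (fun _ => q.2), prod_const, hq2, (mem_powersetCard.1 hI).2]
    rw [sum_congr rfl h1, sum_const, card_powersetCard, card_product, card_univ,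
      Fintype.card_fin, hq1, nsmul_eq_mul]
  refine (sum_le_sum this).trans ?_
  rw [sum_const, card_product, card_powersetCard, card_univ, Fintype.card_fin, nsmul_eq_mul]
  push_cast
  apply le_of_eq
  ring

theorem exp_one_lt : Real.exp 1 < 3 := lt_trans Real.exp_one_lt_d9 (by norm_num)

theorem gam_num_a {j : ℕ} (hj : 8 ≤ j) :
    ((NN j : ℕ) : ℝ) * (((NN j * j ^ 2).choose (6 * j ^ 2 + 1) : ℝ) *
      (1 / ((NN j : ℕ) : ℝ)) ^ (6 * j ^ 2 + 1)) ≤ 1 / 16 := by
  have hN : (0 : ℝ) < ((NN j : ℕ) : ℝ) := by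
    unfold NN
    positivity
  set T := 6 * j ^ 2 + 1 with hT
  have hT0 : (0 : ℝ) < T := by positivity
  have h1 := choose (NN j * j ^ 2) T (by omega)
  have h2 : ((NN j * j ^ 2).choose T : ℝ) * (1 / ((NN j : ℕ) : ℝ)) ^ T ≤ (1 / 2) ^ T := by
    calc ((NN j * j ^ 2).choose T : ℝ) * (1 / ((NN j : ℕ) : ℝ)) ^ T
        ≤ (Real.exp 1 * ((NN j * j ^ 2 : ℕ) : ℝ) / T) ^ T * (1 / ((NN j : ℕ) : ℝ)) ^ T := by gcongr
      _ = (Real.exp 1 * (j : ℝ) ^ 2 / T) ^ T := by
          rw [← mul_pow]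
          congr 1
          push_cast
          field_simp
      _ ≤ (1 / 2) ^ T := by
          apply pow_le_pow_left₀ (by positivity)
          rw [div_le_div_iff₀ hT0 (by norm_num)]
          have : (T : ℝ) = 6 * (j : ℝ) ^ 2 + 1 := by
            rw [hT]
            push_cast
            ring
          rw [this]
          nlinarith [exp_one_lt, sq_nonneg (j : ℝ)]
  calc ((NN j : ℕ) : ℝ) * (((NN j * j ^ 2).choose T : ℝ) * (1 / ((NN j : ℕ) : ℝ)) ^ T)
      ≤ (2 : ℝ) ^ j * (1 / 2) ^ T := by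
        have : ((NN j : ℕ) : ℝ) = 2 ^ j := by
          unfold NN
          push_cast
          rfl
        rw [this] at h2 ⊢
        gcongr
    _ ≤ (2 : ℝ) ^ j * (1 / 2) ^ (j + 4) := by
        gcongr 2 ^ j * ?_
        apply pow_le_pow_of_le_one (by norm_num) (by norm_num)
        rw [hT]
        nlinarith
    _ = 1 / 16 := by
        rw [pow_add, ← mul_assoc, ← mul_pow]
        norm_num

theorem gam_num_b (hPa : PARA_S) : ∀ᶠ j in atTop,
    ((NN j).choose (mm j) : ℝ) ^ 2 * (((mm j * j ^ 2).choose (3 * mm j) : ℝ) *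
      ((mm j : ℝ) / (NN j : ℕ)) ^ (3 * mm j)) ≤ 1 / 16 := by
  filter_upwards [hPa, ev_pow ((96 * AA) ^ 2) 15] with j hPj hev
  obtain ⟨hj8, hP, hPsq, -, -, -, hmN, hm8, -⟩ := hPj
  have hm0 : (0 : ℝ) < (mm j : ℝ) := by
    have : 0 < mm j := by omega
    exact_mod_cast this
  have hN : (0 : ℝ) < ((NN j : ℕ) : ℝ) := by
    unfold NN
    positivity
  -- 96 j^6 m ≤ N
  have hkey : 96 * j ^ 6 * mm j ≤ NN j := by
    have h1 : (96 * j ^ 6 * mm j) ^ 2 ≤ (NN j) ^ 2 := by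
      calc (96 * j ^ 6 * mm j) ^ 2 = (96 * AA) ^ 2 * j ^ 14 * (PP j) ^ 2 := by
            unfold mm
            ring
        _ ≤ (96 * AA) ^ 2 * j ^ 14 * (j * 2 ^ j) := Nat.mul_le_mul_left _ hPsq
        _ = ((96 * AA) ^ 2 * j ^ 15) * 2 ^ j := by ring
        _ ≤ 2 ^ j * 2 ^ j := Nat.mul_le_mul_right _ hev
        _ = (NN j) ^ 2 := by
            unfold NN
            ring
    exact le_of_pow_le_pow_left₀ (by norm_num) (Nat.zero_le _) h1
  have hkey' : 96 * (j : ℝ) ^ 6 * (mm j : ℝ) ≤ ((NN j : ℕ) : ℝ) := by exact_mod_cast hkey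
  set m := mm j with hm
  have hj0 : (0 : ℝ) < (j : ℝ) := by
    have : 0 < j := by omega
    exact_mod_cast this
  have h1 : ((NN j).choose m : ℝ) ≤ (Real.exp 1 * ((NN j : ℕ) : ℝ) / m) ^ m :=
    choose (NN j) m (by omega)
  have h2 : ((m * j ^ 2).choose (3 * m) : ℝ) ≤ (Real.exp 1 * (j : ℝ) ^ 2 / 3) ^ (3 * m) := by
    refine (choose (m * j ^ 2) (3 * m) (by omega)).trans (le_of_eq ?_)
    congr 1
    push_cast
    field_simp
  have he0 := Real.exp_pos 1
  calc ((NN j).choose m : ℝ) ^ 2 * (((m * j ^ 2).choose (3 * m) : ℝ) *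
        ((m : ℝ) / (NN j : ℕ)) ^ (3 * m))
      ≤ ((Real.exp 1 * ((NN j : ℕ) : ℝ) / m) ^ m) ^ 2 *
        ((Real.exp 1 * (j : ℝ) ^ 2 / 3) ^ (3 * m) * ((m : ℝ) / (NN j : ℕ)) ^ (3 * m)) := by gcongr
    _ = (((Real.exp 1 * ((NN j : ℕ) : ℝ) / m)) ^ 2 *
        ((Real.exp 1 * (j : ℝ) ^ 2 / 3) ^ 3 * ((m : ℝ) / (NN j : ℕ)) ^ 3)) ^ m := by
        rw [mul_pow, mul_pow, ← pow_mul, ← pow_mul, ← pow_mul, ← pow_mul, mul_comm m 2]
    _ = ((Real.exp 1) ^ 5 / 27 * (j : ℝ) ^ 6 * ((m : ℝ) / (NN j : ℕ))) ^ m := by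
        congr 1
        field_simp
        ring
    _ ≤ (1 / 2) ^ m := by
        gcongr
        have he5 : (Real.exp 1) ^ 5 ≤ 243 := by
          calc (Real.exp 1) ^ 5 ≤ 3 ^ 5 := by
                gcongr
                exact exp_one_lt.le
            _ = 243 := by norm_num
        have h3 : (j : ℝ) ^ 6 * ((m : ℝ) / (NN j : ℕ)) ≤ 1 / 96 := by
          rw [← mul_div_assoc, div_le_div_iff₀ hN (by norm_num)]
          linarith
        have h4 : 0 ≤ (j : ℝ) ^ 6 * ((m : ℝ) / (NN j : ℕ)) := by positivity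
        calc (Real.exp 1) ^ 5 / 27 * (j : ℝ) ^ 6 * ((m : ℝ) / (NN j : ℕ))
            = (Real.exp 1) ^ 5 / 27 * ((j : ℝ) ^ 6 * ((m : ℝ) / (NN j : ℕ))) := by ring
          _ ≤ 243 / 27 * (1 / 96) := by gcongr
          _ ≤ 1 / 2 := by norm_num
    _ ≤ (1 / 2) ^ 4 := pow_le_pow_of_le_one (by norm_num) (by norm_num) (by omega)
    _ = 1 / 16 := by norm_num

theorem gam (hPa : PARA_S) : GAM_S := by
  classical
  unfold GAM_S
  filter_upwards [hPa, gam_num_b hPa] with j hPj hnb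
  obtain ⟨hj8, hP, hPsq, -, -, -, hmN, hm8, -⟩ := hPj
  have hN : 0 < NN j := by
    unfold NN
    positivity
  have hlt : Kim.pr (NN j) (fun col : Fin (NN j) × Fin (j ^ 2) → Fin (NN j) =>
      (∃ y, 6 * j ^ 2 + 1 ≤ (univ.filter (fun v => col v = y)).card) ∨
      ∃ I : Finset (Fin (NN j) × Fin (j ^ 2)), I.card = 3 * mm j ∧
        (I.image Prod.fst).card ≤ mm j ∧ (I.image col).card ≤ mm j) < 1 := by
    refine lt_of_le_of_lt (pr_or _ _) ?_
    have h1 := (gam_a (N := NN j) (r := j ^ 2) (T := 6 * j ^ 2 + 1) hN).trans (gam_num_a hj8)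
    have h2 := (gam_b (N := NN j) (r := j ^ 2) (m := mm j) hN hmN).trans hnb
    linarith
  obtain ⟨col, hcol⟩ := pr_exists_not hN _ hlt
  push Not at hcol
  obtain ⟨h1, h2⟩ := hcol
  refine ⟨col, fun y => by have := h1 y; omega, ?_⟩
  intro I hI
  by_contra hc
  push Not at hc
  have := h2 I hI hc.1.le
  omega

end Pool.Agent.Lib.MP_6383d0_co.Kim.H64
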