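import Mathlib
import Pool.Agent.Lib.MP_6383d0_co.Kim.Interfaces

/-!
# MP_6383d0_co / Kim: modules REM, MAINDET, COMB
-/

namespace Pool.Agent.Lib.MP_6383d0_co.Kim.H64

open Finset

theorem rem : REM_S := by
  classical
  intro k N hk F
  set 𝒲 : Finset (Finset (Finset (Fin N))) := univ.filter (fun 𝒯 =>
    (∀ T ∈ 𝒯, F.IsNClique k T) ∧ ∀ T ∈ 𝒯, ∀ T' ∈ 𝒯, T ≠ T' → (T ∩ T').card ≤ 1) with h𝒲
  have hne : 𝒲.Nonempty := ⟨∅, by simp [h𝒲]⟩
  obtain ⟨𝒯, h𝒯, hmax⟩ := 𝒲.exists_max_image (fun 𝒯 => 𝒯.card) hne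
  obtain ⟨-, h1, h2⟩ := mem_filter.1 h𝒯
  let F' : SimpleGraph (Fin N) :=
    { Adj := fun x y => F.Adj x y ∧ ∀ T ∈ 𝒯, ¬ (x ∈ T ∧ y ∈ T)
      symm := ⟨fun x y h => ⟨h.1.symm, fun T hT h' => h.2 T hT ⟨h'.2, h'.1⟩⟩⟩
      loopless := ⟨fun x h => F.loopless.irrefl x h.1⟩ }
  refine ⟨F', 𝒯, ⟨fun x y h => h.1, ?_, h1, h2, ?_⟩⟩
  · intro S hS
    have hcl : F.IsNClique k S := ⟨fun x hx y hy hne => (hS.isClique hx hy hne).1, hS.card_eq⟩
    have hS2 : ∀ T ∈ 𝒯, (T ∩ S).card ≤ 1 := by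
      intro T hT
      by_contra hc
      obtain ⟨x, hx, y, hy, hxy⟩ := one_lt_card.1 (not_le.1 hc)
      have := hS.isClique (mem_inter.1 hx).2 (mem_inter.1 hy).2 hxy
      exact this.2 T hT ⟨(mem_inter.1 hx).1, (mem_inter.1 hy).1⟩
    have hSn : S ∉ 𝒯 := by
      intro h
      have := hS2 S h
      rw [inter_self, hS.card_eq] at this
      omega
    have hin : insert S 𝒯 ∈ 𝒲 := by
      rw [h𝒲, mem_filter]
      refine ⟨mem_univ _, ?_, ?_⟩
      · intro T hT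
        rcases mem_insert.1 hT with rfl | hT
        · exact hcl
        · exact h1 T hT
      · intro T hT T' hT' hne
        rcases mem_insert.1 hT with hTS | hTS
        · rcases mem_insert.1 hT' with hTS' | hTS'
          · exact absurd (hTS.trans hTS'.symm) hne
          · rw [inter_comm, hTS]
            exact hS2 T' hTS'
        · rcases mem_insert.1 hT' with hTS' | hTS'
          · rw [hTS']
            exact hS2 T hTS
          · exact h2 T hTS T' hTS' hne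
    have := hmax _ hin
    simp only [card_insert_of_notMem hSn] at this
    omega
  · intro x y hxy hn
    by_contra hc
    push Not at hc
    exact hn ⟨hxy, fun T hT h => hc T hT h.1 h.2⟩

theorem maindet : MAINDET_S := by
  classical
  intro k N P τ V _ ρ b F' 𝒯 hk hR I R hinj hRI hRne hno hcount
  by_contra hcon
  push Not at hcon
  set 𝒯' := 𝒯.filter (fun T => 2 ≤ (T ∩ I.image ρ).card) with h𝒯'
  have hτ : 𝒯'.card < τ := by
    by_contra hc
    obtain ⟨𝒮, hS, hSc⟩ := exists_subset_card_eq (not_lt.1 hc)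
    refine hno ⟨𝒮, hSc, ?_, ?_⟩
    · intro T hT
      have := mem_filter.1 (hS hT)
      exact ⟨hR.tri T this.1, this.2⟩
    · intro T hT T' hT'
      exact hR.disj T (mem_filter.1 (hS hT)).1 T' (mem_filter.1 (hS hT')).1
  set H := R.filter (fun p => hit b (ρ p.1) (ρ p.2)) with hH
  have hmem : ∀ p ∈ H, p.1 ∈ I ∧ p.2 ∈ I := by
    intro p hp
    exact mem_product.1 (hRI (mem_filter.1 hp).1)
  have hinj2 : Set.InjOn (fun p : V × V => (ρ p.1, ρ p.2)) (H : Set (V × V)) := by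
    intro p hp q hq h
    have h1 := hmem p hp
    have h2 := hmem q hq
    have h3 := Prod.mk.inj h
    exact Prod.ext (hinj h1.1 h2.1 h3.1) (hinj h1.2 h2.2 h3.2)
  have himg : H.image (fun p : V × V => (ρ p.1, ρ p.2)) ⊆ 𝒯'.biUnion (fun T => T.offDiag) := by
    intro q hq
    rcases mem_image.1 hq with ⟨p, hp, rfl⟩
    obtain ⟨hp1, hp2⟩ := mem_filter.1 hp
    have hm := hmem p hp
    have hne : ρ p.1 ≠ ρ p.2 := fun h => hRne p hp1 (hinj hm.1 hm.2 h)
    obtain ⟨T, hT, hx, hy⟩ := hR.cov (ρ p.1) (ρ p.2) ⟨hne, Or.inl hp2⟩ (hcon p hp1)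
    refine mem_biUnion.2 ⟨T, mem_filter.2 ⟨hT, ?_⟩, mem_offDiag.2 ⟨hx, hy, hne⟩⟩
    exact one_lt_card.2 ⟨ρ p.1, mem_inter.2 ⟨hx, mem_image_of_mem _ hm.1⟩, ρ p.2,
      mem_inter.2 ⟨hy, mem_image_of_mem _ hm.2⟩, hne⟩
  have h1 : H.card ≤ 𝒯'.card * (k * (k - 1)) := by
    rw [← card_image_of_injOn hinj2]
    refine (card_le_card himg).trans (card_biUnion_le.trans ?_)
    have : ∀ T ∈ 𝒯', T.offDiag.card = k * (k - 1) := by
      intro T hT
      rw [offDiag_card, (hR.tri T (mem_filter.1 hT).1).card_eq, Nat.mul_sub, mul_one]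
    rw [sum_congr rfl this, sum_const, smul_eq_mul]
  have h2 : 𝒯'.card * (k * (k - 1)) ≤ τ * (k * (k - 1)) := Nat.mul_le_mul_right _ hτ.le
  have h3 : τ * (k * (k - 1)) = k * (k - 1) * τ := by ring
  omega

theorem comb : COMB_S := by
  classical
  intro N m V _ ρ σ F1 F2 F1' F2' hle1 hle2 hf1 hf2 hI hM1 hM2
  let G : SimpleGraph V :=
    { Adj := fun u v => (F1'.Adj (ρ u) (ρ v) ∧ ∀ z, ¬ (F2.Adj (σ u) z ∧ F2.Adj (σ v) z)) ∨
        (F2'.Adj (σ u) (σ v) ∧ ∀ z, ¬ (F1.Adj (ρ u) z ∧ F1.Adj (ρ v) z))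
      symm := ⟨fun u v h => by
        rcases h with h | h
        · exact Or.inl ⟨h.1.symm, fun z hz => h.2 z ⟨hz.2, hz.1⟩⟩
        · exact Or.inr ⟨h.1.symm, fun z hz => h.2 z ⟨hz.2, hz.1⟩⟩⟩
      loopless := ⟨fun u h => by
        rcases h with h | h
        · exact F1'.loopless.irrefl _ h.1
        · exact F2'.loopless.irrefl _ h.1⟩ }
  have key : ∀ u v w : V, G.Adj u v → G.Adj v w → G.Adj u w → False := by
    intro u v w huv hvw huw
    have t1 : ∀ a c d : Fin N, F1'.Adj a c → F1'.Adj c d → F1'.Adj a d → False := by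
      intro a c d h1 h2 h3
      exact hf1 {a, c, d} (SimpleGraph.is3Clique_iff.2 ⟨a, c, d, h1, h3, h2, rfl⟩)
    have t2 : ∀ a c d : Fin N, F2'.Adj a c → F2'.Adj c d → F2'.Adj a d → False := by
      intro a c d h1 h2 h3
      exact hf2 {a, c, d} (SimpleGraph.is3Clique_iff.2 ⟨a, c, d, h1, h3, h2, rfl⟩)
    rcases huv with huv | huv <;> rcases hvw with hvw | hvw <;> rcases huw with huw | huw
    · exact t1 _ _ _ huv.1 hvw.1 huw.1
    · exact huw.2 (ρ v) ⟨hle1 huv.1, (hle1 hvw.1).symm⟩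
    · exact hvw.2 (ρ u) ⟨(hle1 huv.1).symm, (hle1 huw.1).symm⟩
    · exact huv.2 (σ w) ⟨hle2 huw.1, hle2 hvw.1⟩
    · exact huv.2 (ρ w) ⟨hle1 huw.1, hle1 hvw.1⟩
    · exact hvw.2 (σ u) ⟨(hle2 huv.1).symm, (hle2 huw.1).symm⟩
    · exact huw.2 (σ v) ⟨hle2 huv.1, (hle2 hvw.1).symm⟩
    · exact t2 _ _ _ huv.1 hvw.1 huw.1
  refine ⟨G, ?_, ?_⟩
  · intro S hS
    obtain ⟨u, v, w, h1, h2, h3, -⟩ := SimpleGraph.is3Clique_iff.1 hS
    exact key u v w h1 h3 h2
  · intro I hIc hind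
    have hsel : ∀ f : V → Fin N, m ≤ (I.image f).card →
        ∃ J ⊆ I, J.card = m ∧ Set.InjOn f (J : Set V) := by
      intro f hf
      obtain ⟨S, hS, hSc⟩ := exists_subset_card_eq hf
      have hch : ∀ s : Fin N, ∃ v : Option V, s ∈ S → ∃ u, v = some u ∧ u ∈ I ∧ f u = s := by
        intro s
        by_cases h : s ∈ S
        · obtain ⟨u, hu, hus⟩ := mem_image.1 (hS h)
          exact ⟨some u, fun _ => ⟨u, rfl, hu, hus⟩⟩
        · exact ⟨none, fun h' => absurd h' h⟩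
      have hch' : ∀ s : S, ∃ u, u ∈ I ∧ f u = s := by
        intro s
        obtain ⟨u, hu, hus⟩ := mem_image.1 (hS s.2)
        exact ⟨u, hu, hus⟩
      choose g hg hg' using hch'
      refine ⟨S.attach.image g, ?_, ?_, ?_⟩
      · intro v hv
        obtain ⟨s, _, rfl⟩ := mem_image.1 hv
        exact hg s
      · rw [card_image_of_injective, card_attach, hSc]
        intro s t hst
        apply Subtype.ext
        rw [← hg' s, ← hg' t, hst]
      · intro v hv w hw hvw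
        obtain ⟨s, _, rfl⟩ := mem_image.1 (mem_coe.1 hv)
        obtain ⟨t, _, rfl⟩ := mem_image.1 (mem_coe.1 hw)
        rw [hg', hg'] at hvw
        rw [Subtype.ext hvw]
    rcases hI I hIc with h | h
    · obtain ⟨J, hJ, hJc, hJi⟩ := hsel ρ h
      obtain ⟨u, hu, v, hv, huv⟩ := hM1 J hJc hJi
      have hadj : G.Adj u v := Or.inl huv
      exact hind (hJ hu) (hJ hv) hadj.ne hadj
    · obtain ⟨J, hJ, hJc, hJi⟩ := hsel σ h
      obtain ⟨u, hu, v, hv, huv⟩ := hM2 J hJc hJi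
      have hadj : G.Adj u v := Or.inr huv
      exact hind (hJ hu) (hJ hv) hadj.ne hadj

end Pool.Agent.Lib.MP_6383d0_co.Kim.H64
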