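import Mathlib
import Pool.Agent.Lib.MP_6383d0_co.Kim.H64.REM
import Pool.Agent.Lib.MP_6383d0_co.Kim.H64.Small

/-!
# MP_6383d0_co / Kim: module KIM
-/

namespace Pool.Agent.Lib.MP_6383d0_co.Kim.H64

open Finset Filter

theorem exists_pair {Ω : Type} [Fintype Ω] [DecidableEq Ω] (hΩ : 0 < Fintype.card Ω)
    (A : Finset Ω) (B1 B2 : Ω → Finset Ω)
    (hA : 8 * A.card ≤ Fintype.card Ω)
    (h1 : ∀ y, y ∉ A → 16 * (B1 y).card ≤ Fintype.card Ω)
    (h2 : ∀ x, x ∉ A → 16 * (B2 x).card ≤ Fintype.card Ω) :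
    ∃ x y, x ∉ A ∧ y ∉ A ∧ x ∉ B1 y ∧ y ∉ B2 x := by
  by_contra hcon
  push Not at hcon
  have hsub : Aᶜ ×ˢ Aᶜ ⊆ (Aᶜ).biUnion (fun y => (B1 y).image (fun x => (x, y))) ∪
      (Aᶜ).biUnion (fun x => (B2 x).image (fun y => (x, y))) := by
    rintro ⟨x, y⟩ hxy
    obtain ⟨hx, hy⟩ := mem_product.1 hxy
    rw [mem_compl] at hx hy
    by_cases hB : x ∈ B1 y
    · exact mem_union_left _ (mem_biUnion.2 ⟨y, mem_compl.2 hy, mem_image_of_mem _ hB⟩)
    · exact mem_union_right _ (mem_biUnion.2 ⟨x, mem_compl.2 hx,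
        mem_image_of_mem _ (hcon x y hx hy hB)⟩)
  have hc := card_le_card hsub
  rw [card_product] at hc
  have hc2 := hc.trans (card_union_le _ _)
  have hb1 : 16 * ((Aᶜ).biUnion (fun y => (B1 y).image (fun x => (x, y)))).card ≤
      Aᶜ.card * Fintype.card Ω := by
    refine (Nat.mul_le_mul_left _ card_biUnion_le).trans ?_
    rw [mul_sum, ← smul_eq_mul, ← sum_const]
    refine sum_le_sum fun y hy => ?_
    exact (Nat.mul_le_mul_left _ card_image_le).trans (h1 y (mem_compl.1 hy))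
  have hb2 : 16 * ((Aᶜ).biUnion (fun x => (B2 x).image (fun y => (x, y)))).card ≤
      Aᶜ.card * Fintype.card Ω := by
    refine (Nat.mul_le_mul_left _ card_biUnion_le).trans ?_
    rw [mul_sum, ← smul_eq_mul, ← sum_const]
    refine sum_le_sum fun x hx => ?_
    exact (Nat.mul_le_mul_left _ card_image_le).trans (h2 x (mem_compl.1 hx))
  have hAc : Aᶜ.card = Fintype.card Ω - A.card := card_compl A
  have hpos : 0 < Aᶜ.card := by omega
  have h3 : 16 * (Aᶜ.card * Aᶜ.card) ≤ 2 * (Aᶜ.card * Fintype.card Ω) := by omega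
  have h4 : Aᶜ.card * (8 * Aᶜ.card) ≤ Aᶜ.card * Fintype.card Ω := by
    have : 16 * (Aᶜ.card * Aᶜ.card) = 2 * (Aᶜ.card * (8 * Aᶜ.card)) := by ring
    omega
  have h5 := Nat.le_of_mul_le_mul_left h4 hpos
  omega

theorem pr_card {α : Type} [Fintype α] [DecidableEq α] {P : ℕ} (hP : 0 < P)
    (E : (α → Fin P) → Prop) [DecidablePred E] :
    ((univ.filter E).card : ℝ) = Kim.pr P E * Fintype.card (α → Fin P) := by
  have hset : {f : α → Fin P | E f} = ↑((univ : Finset (α → Fin P)).filter E) := by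
    ext f
    simp
  unfold Kim.pr
  rw [hset, Set.ncard_coe_finset, Fintype.card_fun, Fintype.card_fin]
  have : (0 : ℝ) < (P : ℝ) ^ Fintype.card α := by positivity
  push_cast
  field_simp

theorem kim (hT : TAME_S) (hD : DET_S) (hM : MAIN_S) (hG : GAM_S) (hPa : PARA_S) : KIM_S := by
  classical
  unfold KIM_S
  filter_upwards [hT, hD, hM, hG, hPa] with j hTj hDj hMj hGj hPj
  obtain ⟨col, hcol, hcolI⟩ := hGj
  obtain ⟨-, hP, -⟩ := hPj
  have hrow : ∀ y : Fin (NN j), (univ.filter (fun v : Fin (NN j) × Fin (j ^ 2) => v.1 = y)).card ≤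
      6 * j ^ 2 := by
    intro y
    have : (univ.filter (fun v : Fin (NN j) × Fin (j ^ 2) => v.1 = y)) =
        (univ : Finset (Fin (j ^ 2))).image (fun i => (y, i)) := by
      ext ⟨a, c⟩
      simp [eq_comm]
    rw [this]
    refine card_image_le.trans ?_
    rw [card_univ, Fintype.card_fin]
    omega
  have hV : Fintype.card (Fin (NN j) × Fin (j ^ 2)) = j ^ 2 * 2 ^ j := by
    rw [Fintype.card_prod, Fintype.card_fin, Fintype.card_fin, NN, mul_comm]
  have hΩ : 0 < Fintype.card (Fin (NN j) × Fin (NN j) → Fin (PP j)) := by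
    rw [Fintype.card_fun, Fintype.card_fin]
    positivity
  set A : Finset (Fin (NN j) × Fin (NN j) → Fin (PP j)) :=
    univ.filter (fun b => ¬ Tame j b ∨ ¬ Tame j (tr b)) with hA
  have hcast : ∀ (x y : ℕ) (c : ℕ) , (x : ℝ) ≤ (1 / (c : ℝ)) * y → 0 < c → c * x ≤ y := by
    intro x y c h hc
    have hc' : (0 : ℝ) < c := by exact_mod_cast hc
    have : (c : ℝ) * x ≤ y := by
      calc (c : ℝ) * x ≤ c * (1 / (c : ℝ) * y) := by gcongr
        _ = y := by field_simp
    exact_mod_cast this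
  have hAc : 8 * A.card ≤ Fintype.card (Fin (NN j) × Fin (NN j) → Fin (PP j)) := by
    apply hcast _ _ 8 _ (by norm_num)
    rw [hA, pr_card hP]
    gcongr
    refine (pr_or _ _).trans ?_
    have h1 := trans (NN j) (PP j) (fun b => ¬ Tame j b)
    rw [h1]
    push_cast
    linarith
  have hgood : ∀ b, b ∉ A → Good j b ∧ Good j (tr b) := by
    intro b hb
    rw [hA, mem_filter] at hb
    push Not at hb
    obtain ⟨h1, h2⟩ := hb (mem_univ _)
    refine ⟨hDj b h1 h2, hDj (tr b) h2 ?_⟩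
    rwa [tr_tr]
  obtain ⟨b1, b2, hb1, hb2, hB1, hB2⟩ := exists_pair hΩ A
    (fun b2 => univ.filter (fun b1 => ¬ MainOK j Prod.fst col b1 b2))
    (fun b1 => univ.filter (fun b2 => ¬ MainOK j col Prod.fst b2 b1)) hAc
    (by
      intro b2 hb2
      apply hcast _ _ 16 _ (by norm_num)
      rw [pr_card hP]
      gcongr
      push_cast
      exact hMj _ Prod.fst col hV hcol b2 (hgood b2 hb2).1 (hgood b2 hb2).2)
    (by
      intro b1 hb1
      apply hcast _ _ 16 _ (by norm_num)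
      rw [pr_card hP]
      gcongr
      push_cast
      exact hMj _ col Prod.fst hV hrow b1 (hgood b1 hb1).1 (hgood b1 hb1).2)
  have hM1 : MainOK j Prod.fst col b1 b2 := by
    by_contra h
    exact hB1 (mem_filter.2 ⟨mem_univ _, h⟩)
  have hM2 : MainOK j col Prod.fst b2 b1 := by
    by_contra h
    exact hB2 (mem_filter.2 ⟨mem_univ _, h⟩)
  obtain ⟨F1', 𝒯1, hR1⟩ := rem 3 (NN j) (by norm_num) (Gr b1)
  obtain ⟨F2', 𝒯2, hR2⟩ := rem 3 (NN j) (by norm_num) (Gr b2)
  exact comb (NN j) (mm j) (Fin (NN j) × Fin (j ^ 2)) Prod.fst col (Gr b1) (Gr b2) F1' F2'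
    hR1.le hR2.le hR1.free hR2.free hcolI (fun I hI hinj => hM1 F1' 𝒯1 hR1 I hI hinj)
    (fun I hI hinj => hM2 F2' 𝒯2 hR2 I hI hinj)

end Pool.Agent.Lib.MP_6383d0_co.Kim.H64
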