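import Mathlib
import Pool.Agent.Lib.MP_6383d0_co.Kim.H64.PR

/-!
# MP_6383d0_co / Kim: module LD
-/

namespace Pool.Agent.Lib.MP_6383d0_co.Kim.H64

open Finset

theorem ld_aux {N P : ℕ} (hP : 0 < P) (Y : Finset (Fin N)) (T : ℕ) (Z : Finset (Fin N)) :
    Kim.pr P (fun b : Fin N × Fin N → Fin P => ∀ z ∈ Z, T ≤ od b z Y) ≤
      ((Y.card.choose T : ℝ) * (1 / (P : ℝ)) ^ T) ^ Z.card := by
  classical
  set 𝒢 : Finset (Fin N → Finset (Fin N)) :=
    Fintype.piFinset (fun z => if z ∈ Z then powersetCard T Y else {∅}) with h𝒢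
  have hcard : (𝒢.card : ℝ) = (Y.card.choose T : ℝ) ^ Z.card := by
    rw [h𝒢, Fintype.card_piFinset]
    push_cast
    have : ∀ z : Fin N, (((if z ∈ Z then powersetCard T Y else {∅} : Finset (Finset (Fin N))).card
        : ℕ) : ℝ) = if z ∈ Z then (Y.card.choose T : ℝ) else 1 := by
      intro z
      by_cases h : z ∈ Z
      · simp [h, card_powersetCard]
      · simp [h]
    rw [Finset.prod_congr rfl (fun z _ => this z), Finset.prod_ite_mem, Finset.univ_inter,
      Finset.prod_const]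
  set A : (Fin N → Finset (Fin N)) → Finset (Fin N × Fin N) :=
    fun g => Z.biUnion (fun z => (g z).image (fun y => (z, y))) with hA
  have hAcard : ∀ g ∈ 𝒢, (A g).card = T * Z.card := by
    intro g hg
    rw [hA]
    simp only
    rw [card_biUnion]
    · have : ∀ z ∈ Z, ((g z).image (fun y => (z, y))).card = T := by
        intro z hz
        rw [card_image_of_injective _ (fun a b h => (Prod.mk.inj h).2)]
        have := Fintype.mem_piFinset.1 hg z
        rw [if_pos hz, mem_powersetCard] at this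
        exact this.2
      rw [sum_congr rfl this, sum_const, smul_eq_mul, mul_comm]
    · intro z _ z' _ hne
      rw [Function.onFun, disjoint_left]
      intro q hq hq'
      rcases mem_image.1 hq with ⟨y, _, rfl⟩
      rcases mem_image.1 hq' with ⟨y', _, h⟩
      exact hne (Prod.mk.inj h).1.symm
  have hsub : Kim.pr P (fun b : Fin N × Fin N → Fin P => ∀ z ∈ Z, T ≤ od b z Y) ≤
      Kim.pr P (fun b : Fin N × Fin N → Fin P => ∃ g ∈ 𝒢, ∀ a ∈ A g, (b a : ℕ) = 0) := by
    refine pr_mono fun b hb => ?_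
    have : ∀ z : Fin N, ∃ S : Finset (Fin N), (z ∈ Z → S ⊆ Y.filter (fun y => hit b z y) ∧
        S.card = T) ∧ (z ∉ Z → S = ∅) := by
      intro z
      by_cases h : z ∈ Z
      · obtain ⟨S, hS, hS'⟩ := exists_subset_card_eq (hb z h)
        exact ⟨S, fun _ => ⟨hS, hS'⟩, fun h' => absurd h h'⟩
      · exact ⟨∅, fun h' => absurd h' h, fun _ => rfl⟩
    choose g hg hg' using this
    refine ⟨g, ?_, ?_⟩
    · rw [h𝒢, Fintype.mem_piFinset]
      intro z
      by_cases h : z ∈ Z
      · rw [if_pos h, mem_powersetCard]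
        exact ⟨(hg z h).1.trans (filter_subset _ _), (hg z h).2⟩
      · rw [if_neg h, mem_singleton]
        exact hg' z h
    · intro a ha
      rcases mem_biUnion.1 ha with ⟨z, hz, ha'⟩
      rcases mem_image.1 ha' with ⟨y, hy, rfl⟩
      exact (mem_filter.1 ((hg z hz).1 hy)).2
  refine hsub.trans ((pr_exists _ _).trans ?_)
  have : ∀ g ∈ 𝒢, Kim.pr P (fun b : Fin N × Fin N → Fin P => ∀ a ∈ A g, (b a : ℕ) = 0) =
      (1 / (P : ℝ)) ^ (T * Z.card) := by
    intro g hg
    rw [pr_zero hP, hAcard g hg]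
  rw [sum_congr rfl this, sum_const, nsmul_eq_mul, hcard, mul_pow, pow_mul]

theorem ld : LD_S := by
  classical
  intro N P hP Y q T
  have hsub : Kim.pr P (fun b : Fin N × Fin N → Fin P =>
      q ≤ (univ.filter (fun z => T ≤ od b z Y)).card) ≤
      Kim.pr P (fun b : Fin N × Fin N → Fin P => ∃ Z ∈ powersetCard q (univ : Finset (Fin N)),
        ∀ z ∈ Z, T ≤ od b z Y) := by
    refine pr_mono fun b hb => ?_
    obtain ⟨Z, hZ, hZ'⟩ := exists_subset_card_eq hb
    exact ⟨Z, mem_powersetCard.2 ⟨subset_univ _, hZ'⟩, fun z hz => (mem_filter.1 (hZ hz)).2⟩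
  refine hsub.trans ((pr_exists _ _).trans ?_)
  have : ∀ Z ∈ powersetCard q (univ : Finset (Fin N)),
      Kim.pr P (fun b : Fin N × Fin N → Fin P => ∀ z ∈ Z, T ≤ od b z Y) ≤
        ((Y.card.choose T : ℝ) * (1 / (P : ℝ)) ^ T) ^ q := by
    intro Z hZ
    have := ld_aux hP Y T Z
    rwa [(mem_powersetCard.1 hZ).2] at this
  refine (sum_le_sum this).trans ?_
  rw [sum_const, card_powersetCard, card_univ, Fintype.card_fin, nsmul_eq_mul]

end Pool.Agent.Lib.MP_6383d0_co.Kim.H64
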