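import Mathlib
import Pool.Agent.Lib.MP_6383d0_co.H51.Sandwich
import Pool.Agent.Lib.MP_6383d0_co.Kim.Interfaces

/-!
# MP_6383d0_co / Kim: modules LOW and LOWK (from Ramsey graphs to the numbers M_k(l))
-/

namespace Pool.Agent.Lib.MP_6383d0_co.Kim.H64

open Finset Filter

/-- A `K_k`-free graph with independence number at most `a` has at most `a F_k(a)` vertices. -/
theorem card_le_F {k a n : ℕ} (hk : 2 ≤ k) (G : SimpleGraph (Fin n)) (h1 : G.CliqueFree k)
    (h2 : G.indepNum ≤ a) : n ≤ a * F k a := by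
  classical
  obtain ⟨C⟩ := colorable_F hk (aLt_univ_iff.1 h2) h1
  have h := Finset.card_le_mul_card_image_of_maps_to (s := (univ : Finset (Fin n)))
    (t := (univ : Finset (Fin (F k a)))) (f := C) (fun _ _ => mem_univ _) a ?_
  · simpa using h
  · intro c _
    have h3 : G.IsIndepSet ((univ.filter (fun v => C v = c) : Finset (Fin n)) : Set (Fin n)) := by
      intro x hx y hy _ hadj
      simp only [coe_filter, mem_univ, true_and, Set.mem_ofPred_eq] at hx hy
      exact C.valid hadj (hx.trans hy.symm)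
    exact h3.card_le_indepNum.trans h2

theorem card_le_M {k l n : ℕ} (hk : 2 ≤ k) (G : SimpleGraph (Fin n)) (h1 : G.CliqueFree k)
    (h2 : G.indepNum ≤ l + 1) : n ≤ (l + 1) * M k l :=
  (card_le_F hk G h1 h2).trans (Nat.mul_le_mul_left _ (F_le_M k l hk))

/-- The complement version. -/
theorem card_le_M_compl {k l n : ℕ} (hk : 2 ≤ k) (G : SimpleGraph (Fin n))
    (h1 : G.CliqueFree (l + 2)) (h2 : G.indepNum < k) : n ≤ (l + 1) * M k l := by
  apply card_le_M hk Gᶜ
  · intro s hs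
    rw [SimpleGraph.isNClique_compl] at hs
    have := hs.isIndepSet.card_le_indepNum
    rw [hs.card_eq] at this
    omega
  · rw [SimpleGraph.indepNum_compl]
    by_contra hc
    push Not at hc
    obtain ⟨s, hs⟩ := G.exists_isNClique_cliqueNum
    exact h1.mono (by omega : l + 2 ≤ G.cliqueNum) s hs

theorem log_add_two {l : ℕ} (hl : 2 ≤ l) :
    Real.log ((l + 2 : ℕ) : ℝ) ≤ 2 * Real.log l := by
  have h1 : ((l + 2 : ℕ) : ℝ) ≤ (l : ℝ) ^ 2 := by
    have : l + 2 ≤ l ^ 2 := by nlinarith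
    exact_mod_cast this
  have h2 := Real.log_le_log (by positivity) h1
  rw [Real.log_pow] at h2
  exact_mod_cast h2

theorem log_pos' {l : ℕ} (hl : 2 ≤ l) : 0 < Real.log (l : ℝ) :=
  Real.log_pos (by exact_mod_cast hl)

/-- From an eventual bound to a bound for all `l ≥ a`. -/
theorem all_of_eventually {f g : ℕ → ℝ} {a : ℕ} {c0 : ℝ} (hc0 : 0 < c0)
    (hg : ∀ l, a ≤ l → 1 ≤ g l)
    (h : ∀ᶠ l : ℕ in atTop, c0 * f l ≤ g l) :
    ∃ c : ℝ, 0 < c ∧ ∀ l, a ≤ l → c * f l ≤ g l := by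
  rw [eventually_atTop] at h
  obtain ⟨t, ht⟩ := h
  -- a bound for `|f|` on `l < t`
  obtain ⟨B, hB0, hB⟩ : ∃ B : ℝ, 0 < B ∧ ∀ l, l < t → f l ≤ B := by
    refine ⟨1 + ∑ l ∈ range t, |f l|, by positivity, fun l hl => ?_⟩
    have h1 := Finset.single_le_sum (f := fun l => |f l|) (fun _ _ => abs_nonneg _)
      (mem_range.2 hl)
    have h2 := le_abs_self (f l)
    have h3 : |f l| ≤ ∑ l ∈ range t, |f l| := h1
    linarith
  refine ⟨min c0 (1 / B), lt_min hc0 (by positivity), fun l hl => ?_⟩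
  have hg1 := hg l hl
  rcases le_or_gt (f l) 0 with hf | hf
  · have : 0 ≤ min c0 (1 / B) := (lt_min hc0 (by positivity)).le
    nlinarith [mul_nonneg this (neg_nonneg.2 hf)]
  rcases lt_or_ge l t with h1 | h1
  · calc min c0 (1 / B) * f l ≤ 1 / B * B :=
        mul_le_mul (min_le_right _ _) (hB l h1) hf.le (by positivity)
      _ = 1 := by field_simp
      _ ≤ g l := hg1
  · refine le_trans ?_ (ht l h1)
    exact mul_le_mul_of_nonneg_right (min_le_left _ _) hf.le

theorem one_le_M {k l : ℕ} (hk : 2 ≤ k) : (1 : ℝ) ≤ M k l := by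
  have h := M_ge k l hk
  have : 1 ≤ M k l := by omega
  exact_mod_cast this

theorem low (hR : RAM_S) : LOW_S := by
  obtain ⟨c, hc, h⟩ := hR
  refine ⟨?_, ?_⟩
  · apply all_of_eventually (c0 := c / 2) (by positivity) (fun l _ => one_le_M (by norm_num))
    have h2 := (tendsto_add_atTop_nat 2).eventually h
    filter_upwards [h2, eventually_ge_atTop 2] with l hl hl2
    obtain ⟨n, hn, G, hG1, hG2⟩ := hl
    have h3 : n ≤ (l + 1) * M 3 l := card_le_M (by norm_num) G hG1 (by omega)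
    have h4 : (n : ℝ) ≤ ((l + 2 : ℕ) : ℝ) * M 3 l := by
      have : n ≤ (l + 2) * M 3 l := h3.trans (Nat.mul_le_mul_right _ (by omega))
      exact_mod_cast this
    have h5 := hn.trans h4
    have h6 := log_add_two hl2
    have h7 := log_pos' hl2
    have h8 : 0 < Real.log ((l + 2 : ℕ) : ℝ) := log_pos' (by omega)
    have h9 : (0 : ℝ) < ((l + 2 : ℕ) : ℝ) := by positivity
    rw [div_le_iff₀ h8] at h5
    have h10 : c * ((l + 2 : ℕ) : ℝ) ≤ M 3 l * Real.log ((l + 2 : ℕ) : ℝ) := by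
      have : ((l + 2 : ℕ) : ℝ) * (c * ((l + 2 : ℕ) : ℝ)) ≤
          ((l + 2 : ℕ) : ℝ) * (M 3 l * Real.log ((l + 2 : ℕ) : ℝ)) := by
        calc _ = c * ((l + 2 : ℕ) : ℝ) ^ 2 := by ring
          _ ≤ _ := h5
          _ = _ := by ring
      exact le_of_mul_le_mul_left this h9
    have h11 : (0 : ℝ) ≤ M 3 l := Nat.cast_nonneg _
    have h12 : (l : ℝ) ≤ ((l + 2 : ℕ) : ℝ) := by exact_mod_cast (by omega : l ≤ l + 2)
    calc c / 2 * ((l : ℝ) / Real.log l) = (c * l) / (2 * Real.log l) := by field_simp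
      _ ≤ (M 3 l : ℝ) := by
        rw [div_le_iff₀ (by positivity)]
        calc c * (l : ℝ) ≤ c * ((l + 2 : ℕ) : ℝ) := by gcongr
          _ ≤ M 3 l * Real.log ((l + 2 : ℕ) : ℝ) := h10
          _ ≤ M 3 l * (2 * Real.log l) := by gcongr
  · apply all_of_eventually (c0 := c / 2) (by positivity)
      (fun k hk => one_le_M (by omega : 2 ≤ k))
    filter_upwards [h, eventually_ge_atTop 3] with k hk hk3
    obtain ⟨n, hn, G, hG1, hG2⟩ := hk
    have h3 : n ≤ (1 + 1) * M k 1 := card_le_M_compl (by omega) G hG1 hG2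
    have h4 : (n : ℝ) ≤ 2 * M k 1 := by exact_mod_cast h3
    have h5 := hn.trans h4
    have h6 : c / 2 * ((k : ℝ) ^ 2 / Real.log k) = (c * (k : ℝ) ^ 2 / Real.log k) / 2 := by ring
    calc c / 2 * ((k : ℝ) ^ 2 / Real.log k) = (c * (k : ℝ) ^ 2 / Real.log k) / 2 := h6
      _ ≤ (M k 1 : ℝ) := by linarith

theorem lowk (hR : RAMK_S) : LOWK_S := by
  refine ⟨fun k hk => ?_, fun l hl => ?_⟩
  · obtain ⟨c, hc, h⟩ := hR k hk
    set e : ℝ := ((k : ℝ) + 1) / 2 with he
    have he0 : 0 < e := by positivity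
    have he1 : 1 ≤ e := by
      have : (3 : ℝ) ≤ k := by exact_mod_cast hk
      rw [he]
      linarith
    have hek : ((k : ℝ) - 1) / 2 = e - 1 := by rw [he]; ring
    rw [hek]
    apply all_of_eventually (c0 := c / 2 ^ e) (by positivity)
      (fun l _ => one_le_M (by omega : 2 ≤ k))
    have h2 := (tendsto_add_atTop_nat 2).eventually h
    filter_upwards [h2, eventually_ge_atTop 2] with l hl hl2
    obtain ⟨n, hn, G, hG1, hG2⟩ := hl
    have h3 : n ≤ (l + 1) * M k l := card_le_M (by omega) G hG1 (by omega)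
    have h4 : (n : ℝ) ≤ ((l + 2 : ℕ) : ℝ) * M k l := by
      have : n ≤ (l + 2) * M k l := h3.trans (Nat.mul_le_mul_right _ (by omega))
      exact_mod_cast this
    have h5 := hn.trans h4
    have h6 := log_add_two hl2
    have h7 := log_pos' hl2
    have h8 : 0 < Real.log ((l + 2 : ℕ) : ℝ) := log_pos' (by omega)
    have h9 : (0 : ℝ) < ((l + 2 : ℕ) : ℝ) := by positivity
    have hl0 : (0 : ℝ) < l := by
      have : 0 < l := by omega
      exact_mod_cast this
    have h12 : (l : ℝ) ≤ ((l + 2 : ℕ) : ℝ) := by exact_mod_cast (by omega : l ≤ l + 2)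
    rw [Real.div_rpow h9.le h8.le] at h5
    have h10 : ((l + 2 : ℕ) : ℝ) ^ e = ((l + 2 : ℕ) : ℝ) * ((l + 2 : ℕ) : ℝ) ^ (e - 1) := by
      rw [Real.rpow_sub_one h9.ne']
      field_simp
    have h13 : c * (((l + 2 : ℕ) : ℝ) ^ (e - 1) / Real.log ((l + 2 : ℕ) : ℝ) ^ e) ≤ M k l := by
      have : ((l + 2 : ℕ) : ℝ) * (c * (((l + 2 : ℕ) : ℝ) ^ (e - 1) /
          Real.log ((l + 2 : ℕ) : ℝ) ^ e)) ≤ ((l + 2 : ℕ) : ℝ) * M k l := by
        refine le_trans (le_of_eq ?_) h5
        rw [h10]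
        ring
      exact le_of_mul_le_mul_left this h9
    refine le_trans ?_ h13
    have h14 : (l : ℝ) ^ (e - 1) ≤ ((l + 2 : ℕ) : ℝ) ^ (e - 1) :=
      Real.rpow_le_rpow hl0.le h12 (by linarith)
    have h15 : Real.log ((l + 2 : ℕ) : ℝ) ^ e ≤ 2 ^ e * Real.log l ^ e := by
      rw [← Real.mul_rpow (by norm_num) h7.le]
      exact Real.rpow_le_rpow h8.le h6 he0.le
    have h16 : 0 < Real.log ((l + 2 : ℕ) : ℝ) ^ e := Real.rpow_pos_of_pos h8 _
    have h17 : 0 < Real.log (l : ℝ) ^ e := Real.rpow_pos_of_pos h7 _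
    have h18 : (0 : ℝ) < 2 ^ e := Real.rpow_pos_of_pos (by norm_num) _
    calc c / 2 ^ e * ((l : ℝ) ^ (e - 1) / Real.log l ^ e)
        = c * ((l : ℝ) ^ (e - 1) / (2 ^ e * Real.log l ^ e)) := by field_simp
      _ ≤ c * (((l + 2 : ℕ) : ℝ) ^ (e - 1) / Real.log ((l + 2 : ℕ) : ℝ) ^ e) := by gcongr
  · obtain ⟨c, hc, h⟩ := hR (l + 2) (by omega)
    have hl1 : (0 : ℝ) < (l : ℝ) + 1 := by positivity
    apply all_of_eventually (c0 := c / (l + 1)) (by positivity)
      (fun k hk => one_le_M (by omega : 2 ≤ k))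
    filter_upwards [h, eventually_ge_atTop 3] with k hk hk3
    obtain ⟨n, hn, G, hG1, hG2⟩ := hk
    have h3 : n ≤ (l + 1) * M k l := card_le_M_compl (by omega) G hG1 hG2
    have h4 : (n : ℝ) ≤ ((l : ℝ) + 1) * M k l := by exact_mod_cast h3
    have h5 := hn.trans h4
    have h6 : (((l + 2 : ℕ) : ℝ) + 1) / 2 = ((l : ℝ) + 3) / 2 := by push_cast; ring
    rw [h6] at h5
    rw [div_mul_eq_mul_div, div_le_iff₀ hl1, mul_comm (M k l : ℝ)]
    exact h5

end Pool.Agent.Lib.MP_6383d0_co.Kim.H64
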