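import Mathlib
import Pool.Agent.Lib.MP_6383d0_co.Kim.H64.PR

/-!
# MP_6383d0_co / Kim: module TAIL
-/

namespace Pool.Agent.Lib.MP_6383d0_co.Kim.H64

open Finset

theorem tail : TAIL_S := by
  classical
  intro α _ _ P hP R h
  have hP' : (0 : ℝ) < P := by exact_mod_cast hP
  set g : α → Fin P → ℝ := fun a v => if a ∈ R ∧ (v : ℕ) = 0 then 1 / 2 else 1 with hg
  have hsum : ∀ a : α, ∑ v : Fin P, g a v = if a ∈ R then (P : ℝ) * (1 - 1 / (2 * P)) else P := by
    intro a
    by_cases ha : a ∈ R
    · simp only [hg, ha, true_and, if_true]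
      have : ∀ v : Fin P, (if (v : ℕ) = 0 then (1 / 2 : ℝ) else 1) =
          1 - (if v = (⟨0, hP⟩ : Fin P) then (1 / 2 : ℝ) else 0) := by
        intro v
        by_cases hv : (v : ℕ) = 0
        · have : v = (⟨0, hP⟩ : Fin P) := Fin.ext hv
          rw [if_pos hv, if_pos this]
          norm_num
        · have : v ≠ (⟨0, hP⟩ : Fin P) := fun h => hv (by rw [h])
          rw [if_neg hv, if_neg this]
          norm_num
      rw [sum_congr rfl (fun v _ => this v), sum_sub_distrib, sum_ite_eq' univ, if_pos (mem_univ _)]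
      simp only [sum_const, card_univ, Fintype.card_fin, nsmul_eq_mul, mul_one]
      field_simp
    · simp [hg, ha]
  have hprod : ∑ b : α → Fin P, ∏ a, g a (b a) =
      (P : ℝ) ^ Fintype.card α * (1 - 1 / (2 * (P : ℝ))) ^ R.card := by
    have h1 := Finset.prod_univ_sum (fun _ : α => (univ : Finset (Fin P))) g
    rw [Fintype.piFinset_univ] at h1
    rw [← h1, prod_congr rfl (fun a _ => hsum a)]
    have h2 : ∀ a : α, (if a ∈ R then (P : ℝ) * (1 - 1 / (2 * P)) else P) =
        P * (if a ∈ R then (1 - 1 / (2 * (P : ℝ))) else 1) := by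
      intro a
      split_ifs <;> simp
    rw [prod_congr rfl (fun a _ => h2 a), prod_mul_distrib, prod_const, card_univ,
      prod_ite_mem, univ_inter, prod_const]
  have hgR : ∀ b : α → Fin P, ∏ a, g a (b a) =
      (1 / 2) ^ (R.filter (fun a => (b a : ℕ) = 0)).card := by
    intro b
    have : ∀ a : α, g a (b a) = if a ∈ R.filter (fun a => (b a : ℕ) = 0) then (1 / 2 : ℝ) else 1 := by
      intro a
      simp [hg, mem_filter]
    rw [prod_congr rfl (fun a _ => this a), prod_ite_mem, univ_inter, prod_const]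
  unfold Kim.pr
  rw [div_le_iff₀ (by positivity)]
  have hset : {f : α → Fin P | (R.filter (fun a => (f a : ℕ) = 0)).card ≤ h} =
      ↑((univ : Finset (α → Fin P)).filter
        (fun f => (R.filter (fun a => (f a : ℕ) = 0)).card ≤ h)) := by
    ext f
    simp
  rw [hset, Set.ncard_coe_finset]
  have h3 : (((univ : Finset (α → Fin P)).filter
        (fun f => (R.filter (fun a => (f a : ℕ) = 0)).card ≤ h)).card : ℝ) ≤
      ∑ b : α → Fin P, 2 ^ h * ∏ a, g a (b a) := by
    rw [card_eq_sum_ones]
    push_cast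
    rw [sum_filter]
    refine sum_le_sum fun b _ => ?_
    rw [hgR b]
    split_ifs with hb
    · have h4 : (1 / 2 : ℝ) ^ h ≤ (1 / 2) ^ (R.filter (fun a => (b a : ℕ) = 0)).card :=
        pow_le_pow_of_le_one (by norm_num) (by norm_num) hb
      have h5 : (2 : ℝ) ^ h * (1 / 2) ^ h = 1 := by
        rw [← mul_pow]
        norm_num
      calc (1 : ℝ) = 2 ^ h * (1 / 2) ^ h := h5.symm
        _ ≤ _ := by gcongr
    · positivity
  refine h3.trans (le_of_eq ?_)
  rw [← mul_sum, hprod]
  ring

end Pool.Agent.Lib.MP_6383d0_co.Kim.H64
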