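import Mathlib
import Pool.Agent.Lib.MP_6383d0_co.Kim.H64.PR

/-!
# MP_6383d0_co / Kim: module TRI
-/

namespace Pool.Agent.Lib.MP_6383d0_co.Kim.H64

open Finset

/-- The increasing pairs of a set. -/
def prs {N : ℕ} (T : Finset (Fin N)) : Finset (Fin N × Fin N) :=
  (T ×ˢ T).filter (fun p => p.1 < p.2)

/-- An orientation of the edges of `T`. -/
def ori {N : ℕ} (T : Finset (Fin N)) (S : Finset (Fin N × Fin N)) : Finset (Fin N × Fin N) :=
  S ∪ (prs T \ S).image Prod.swap

theorem card_prs {N : ℕ} (T : Finset (Fin N)) : (prs T).card = T.card.choose 2 := by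
  classical
  have hU : T.offDiag = prs T ∪ (prs T).image Prod.swap := by
    ext ⟨x, y⟩
    simp only [mem_offDiag, mem_union, mem_image, prs, mem_filter, mem_product, Prod.exists,
      Prod.swap_prod_mk, Prod.mk.injEq]
    constructor
    · rintro ⟨hx, hy, hne⟩
      rcases lt_or_gt_of_ne hne with h | h
      · exact Or.inl ⟨⟨hx, hy⟩, h⟩
      · exact Or.inr ⟨y, x, ⟨⟨hy, hx⟩, h⟩, rfl, rfl⟩
    · rintro (⟨⟨hx, hy⟩, h⟩ | ⟨a, c, ⟨⟨ha, hc⟩, h⟩, rfl, rfl⟩)
      · exact ⟨hx, hy, h.ne⟩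
      · exact ⟨hc, ha, h.ne'⟩
  have hd : Disjoint (prs T) ((prs T).image Prod.swap) := by
    rw [disjoint_left]
    rintro ⟨x, y⟩ h h'
    simp only [mem_image, prs, mem_filter, mem_product, Prod.exists,
      Prod.swap_prod_mk, Prod.mk.injEq] at h h'
    obtain ⟨a, c, ⟨⟨ha, hc⟩, h3⟩, rfl, rfl⟩ := h'
    exact absurd h.2 (not_lt.2 h3.le)
  have h1 : T.offDiag.card = 2 * (prs T).card := by
    rw [hU, card_union_of_disjoint hd, card_image_of_injective _ Prod.swap_injective]
    ring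
  rw [offDiag_card] at h1
  rw [Nat.choose_two_right]
  have h2 : T.card * T.card - T.card = T.card * (T.card - 1) := by
    rw [Nat.mul_sub, mul_one]
  omega

theorem ori_subset {N : ℕ} {T : Finset (Fin N)} {S : Finset (Fin N × Fin N)} (hS : S ⊆ prs T) :
    ori T S ⊆ T.offDiag := by
  rintro ⟨x, y⟩ h
  rcases mem_union.1 h with h | h
  · have := mem_filter.1 (hS h)
    have h2 := mem_product.1 this.1
    exact mem_offDiag.2 ⟨h2.1, h2.2, (this.2 : x < y).ne⟩
  · rcases mem_image.1 h with ⟨⟨a, c⟩, ha, hac⟩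
    simp only [Prod.swap_prod_mk, Prod.mk.injEq] at hac
    obtain ⟨rfl, rfl⟩ := hac
    have := mem_filter.1 (mem_sdiff.1 ha).1
    have h2 := mem_product.1 this.1
    exact mem_offDiag.2 ⟨h2.2, h2.1, (this.2 : a < c).ne'⟩

theorem card_ori {N : ℕ} {T : Finset (Fin N)} {S : Finset (Fin N × Fin N)} (hS : S ⊆ prs T) :
    (ori T S).card = T.card.choose 2 := by
  classical
  rw [ori, card_union_of_disjoint, card_image_of_injective _ Prod.swap_injective,
    card_sdiff_of_subset hS, card_prs]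
  · have := card_le_card hS
    rw [card_prs] at this
    omega
  · rw [disjoint_left]
    rintro ⟨x, y⟩ h h'
    rcases mem_image.1 h' with ⟨⟨a, c⟩, ha, hac⟩
    simp only [Prod.swap_prod_mk, Prod.mk.injEq] at hac
    obtain ⟨rfl, rfl⟩ := hac
    have h1 : c < a := (mem_filter.1 (hS h)).2
    have h2 : a < c := (mem_filter.1 (mem_sdiff.1 ha).1).2
    exact absurd h1 (not_lt.2 h2.le)

theorem card_touch {N k : ℕ} (hk : 2 ≤ k) (X : Finset (Fin N)) :
    ((powersetCard k (univ : Finset (Fin N))).filter (fun T => 2 ≤ (T ∩ X).card)).card ≤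
      X.card ^ 2 * N ^ (k - 2) := by
  classical
  have : ((powersetCard k (univ : Finset (Fin N))).filter (fun T => 2 ≤ (T ∩ X).card)) ⊆
      (X ×ˢ X ×ˢ (univ : Finset (Fin (k - 2) → Fin N))).image
        (fun p => insert p.1 (insert p.2.1 (univ.image p.2.2))) := by
    intro T hT
    rcases mem_filter.1 hT with ⟨hT1, hT2⟩
    have hTc := (mem_powersetCard.1 hT1).2
    obtain ⟨x, hx, x', hx', hne⟩ := one_lt_card.1 (by omega : 1 < (T ∩ X).card)
    have hxT := (mem_inter.1 hx).1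
    have hxX := (mem_inter.1 hx).2
    have hxT' := (mem_inter.1 hx').1
    have hxX' := (mem_inter.1 hx').2
    have hc : ((T.erase x).erase x').card = k - 2 := by
      rw [card_erase_of_mem (mem_erase.2 ⟨hne.symm, hxT'⟩), card_erase_of_mem hxT]
      omega
    let e := ((T.erase x).erase x').orderIsoOfFin hc
    refine mem_image.2 ⟨(x, x', fun i => ((e i : _) : Fin N)), ?_, ?_⟩
    · exact mem_product.2 ⟨hxX, mem_product.2 ⟨hxX', mem_univ _⟩⟩
    · ext y
      simp only [mem_insert, mem_image, mem_univ, true_and]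
      constructor
      · rintro (rfl | rfl | ⟨i, rfl⟩)
        · exact hxT
        · exact hxT'
        · exact mem_of_mem_erase (mem_of_mem_erase (e i).2)
      · intro hy
        by_cases h1 : y = x
        · exact Or.inl h1
        by_cases h2 : y = x'
        · exact Or.inr (Or.inl h2)
        · refine Or.inr (Or.inr ⟨e.symm ⟨y, mem_erase.2 ⟨h2, mem_erase.2 ⟨h1, hy⟩⟩⟩, ?_⟩)
          simp
  refine (card_le_card this).trans (card_image_le.trans ?_)
  rw [card_product, card_product, card_univ, Fintype.card_fun, Fintype.card_fin, Fintype.card_fin]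
  apply le_of_eq
  ring

theorem tri : TRI_S := by
  classical
  intro k N P hk hP X τ
  set 𝒦 := (powersetCard k (univ : Finset (Fin N))).filter (fun T => 2 ≤ (T ∩ X).card) with h𝒦
  set 𝒪 : Finset (Finset (Fin N × Fin N)) :=
    𝒦.biUnion (fun T => (prs T).powerset.image (fun S => ori T S)) with h𝒪
  have hk2 : 1 ≤ k.choose 2 := Nat.choose_pos hk
  have h𝒪card : 𝒪.card ≤ 2 ^ (k.choose 2) * X.card ^ 2 * N ^ (k - 2) := by
    refine card_biUnion_le.trans ?_
    have : ∀ T ∈ 𝒦, ((prs T).powerset.image (fun S => ori T S)).card ≤ 2 ^ (k.choose 2) := by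
      intro T hT
      refine card_image_le.trans ?_
      rw [card_powerset, card_prs, (mem_powersetCard.1 (mem_filter.1 hT).1).2]
    refine (sum_le_sum this).trans ?_
    rw [sum_const, smul_eq_mul, mul_comm, mul_assoc]
    exact Nat.mul_le_mul_left _ (card_touch hk X)
  set 𝒟 := (powersetCard τ 𝒪).filter (fun ℬ => (∀ β ∈ ℬ, β.card = k.choose 2) ∧
    ∀ β ∈ ℬ, ∀ β' ∈ ℬ, β ≠ β' → Disjoint β β') with h𝒟
  have hsub : Kim.pr P (fun b : Fin N × Fin N → Fin P => ∃ 𝒯 : Finset (Finset (Fin N)),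
      𝒯.card = τ ∧ (∀ T ∈ 𝒯, (Gr b).IsNClique k T ∧ 2 ≤ (T ∩ X).card) ∧
      (∀ T ∈ 𝒯, ∀ T' ∈ 𝒯, T ≠ T' → (T ∩ T').card ≤ 1)) ≤
      Kim.pr P (fun b : Fin N × Fin N → Fin P => ∃ ℬ ∈ 𝒟, ∀ a ∈ ℬ.biUnion id, (b a : ℕ) = 0) := by
    refine pr_mono fun b => ?_
    rintro ⟨𝒯, hτ, hcl, hdj⟩
    set β : Finset (Fin N) → Finset (Fin N × Fin N) :=
      fun T => ori T ((prs T).filter (fun p => hit b p.1 p.2)) with hβ
    have hβc : ∀ T ∈ 𝒯, (β T).card = k.choose 2 := by
      intro T hT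
      rw [hβ]
      simp only
      rw [card_ori (filter_subset _ _), (hcl T hT).1.card_eq]
    have hβd : ∀ T ∈ 𝒯, ∀ T' ∈ 𝒯, T ≠ T' → Disjoint (β T) (β T') := by
      intro T hT T' hT' hne
      rw [disjoint_left]
      rintro ⟨x, y⟩ h h'
      have h1 := mem_offDiag.1 (ori_subset (filter_subset _ _) h)
      have h2 := mem_offDiag.1 (ori_subset (filter_subset _ _) h')
      have h3 := hdj T hT T' hT' hne
      have h4 : 1 < (T ∩ T').card := one_lt_card.2 ⟨x, mem_inter.2 ⟨h1.1, h2.1⟩, y,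
        mem_inter.2 ⟨h1.2.1, h2.2.1⟩, h1.2.2⟩
      omega
    have hinj : Set.InjOn β (𝒯 : Set (Finset (Fin N))) := by
      intro T hT T' hT' h
      by_contra hne
      have h1 := hβd T hT T' hT' hne
      rw [← h, disjoint_self_iff_empty] at h1
      have h2 := hβc T hT
      rw [h1, card_empty] at h2
      omega
    refine ⟨𝒯.image β, ?_, ?_⟩
    · rw [h𝒟, mem_filter, mem_powersetCard, card_image_of_injOn hinj]
      refine ⟨⟨?_, hτ⟩, ?_, ?_⟩
      · intro γ hγ
        rcases mem_image.1 hγ with ⟨T, hT, rfl⟩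
        refine mem_biUnion.2 ⟨T, ?_, mem_image.2 ⟨_, mem_powerset.2 (filter_subset _ _), rfl⟩⟩
        exact mem_filter.2 ⟨mem_powersetCard.2 ⟨subset_univ _, (hcl T hT).1.card_eq⟩, (hcl T hT).2⟩
      · intro γ hγ
        rcases mem_image.1 hγ with ⟨T, hT, rfl⟩
        exact hβc T hT
      · intro γ hγ γ' hγ' hne
        rcases mem_image.1 hγ with ⟨T, hT, rfl⟩
        rcases mem_image.1 hγ' with ⟨T', hT', rfl⟩
        exact hβd T hT T' hT' (fun h => hne (by rw [h]))
    · intro a ha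
      rcases mem_biUnion.1 ha with ⟨γ, hγ, haγ⟩
      rcases mem_image.1 hγ with ⟨T, hT, rfl⟩
      rcases mem_union.1 haγ with h | h
      · exact (mem_filter.1 h).2
      · rcases mem_image.1 h with ⟨⟨x, y⟩, hxy, rfl⟩
        rcases mem_sdiff.1 hxy with ⟨h1, h2⟩
        have h3 := mem_filter.1 h1
        have h4 := mem_product.1 h3.1
        have h5 : (Gr b).Adj x y := (hcl T hT).1.isClique h4.1 h4.2 (h3.2 : x < y).ne
        rcases h5.2 with h6 | h6
        · exact absurd (mem_filter.2 ⟨h1, h6⟩) h2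
        · exact h6
  refine hsub.trans ((pr_exists _ _).trans ?_)
  have hpr : ∀ ℬ ∈ 𝒟, Kim.pr P (fun b : Fin N × Fin N → Fin P =>
      ∀ a ∈ ℬ.biUnion id, (b a : ℕ) = 0) = (1 / (P : ℝ)) ^ (k.choose 2 * τ) := by
    intro ℬ hℬ
    rcases mem_filter.1 hℬ with ⟨h1, h2, h3⟩
    rw [pr_zero hP, card_biUnion]
    · rw [sum_congr rfl (fun β hβ => (h2 β hβ : (id β).card = _)), sum_const, smul_eq_mul,
        (mem_powersetCard.1 h1).2, mul_comm]
    · intro β hβ β' hβ' hne
      exact h3 β hβ β' hβ' hne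
  rw [sum_congr rfl hpr, sum_const, nsmul_eq_mul]
  gcongr
  refine (card_filter_le _ _).trans ?_
  rw [card_powersetCard]
  exact Nat.choose_le_choose _ h𝒪card

end Pool.Agent.Lib.MP_6383d0_co.Kim.H64
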