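import Mathlib
import Pool.Agent.Lib.MP_6383d0_co.Kim.H64.TAIL
import Pool.Agent.Lib.MP_6383d0_co.Kim.H64.TRI
import Pool.Agent.Lib.MP_6383d0_co.Kim.H64.REM

/-!
# MP_6383d0_co / Kim: module MAIN
-/

namespace Pool.Agent.Lib.MP_6383d0_co.Kim.H64

open Finset Filter

/-- The event for one set of points (any `k`): few hits in `R`, or many edge-disjoint cliques. -/
theorem pr_event {N P : ℕ} (hP : 0 < P) {k : ℕ} (hk : 2 ≤ k) (V : Type) [DecidableEq V]
    (ρ : V → Fin N) (I : Finset V) (hinj : Set.InjOn ρ (I : Set V)) (R : Finset (V × V))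
    (hR : R ⊆ I ×ˢ I) (h τ q : ℕ) (hq : q ≤ R.card) :
    Kim.pr P (fun b : Fin N × Fin N → Fin P =>
      (R.filter (fun p => hit b (ρ p.1) (ρ p.2))).card ≤ h ∨
      ∃ 𝒮 : Finset (Finset (Fin N)), 𝒮.card = τ ∧
        (∀ T ∈ 𝒮, (Gr b).IsNClique k T ∧ 2 ≤ (T ∩ I.image ρ).card) ∧
        (∀ T ∈ 𝒮, ∀ T' ∈ 𝒮, T ≠ T' → (T ∩ T').card ≤ 1)) ≤
    (2 : ℝ) ^ h * (1 - 1 / (2 * (P : ℝ))) ^ q +
      ((2 ^ (k.choose 2) * I.card ^ 2 * N ^ (k - 2)).choose τ : ℝ) *
        (1 / (P : ℝ)) ^ (k.choose 2 * τ) := by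
  classical
  refine (pr_or _ _).trans (add_le_add ?_ ?_)
  · set R' := R.image (fun p : V × V => (ρ p.1, ρ p.2)) with hR'
    have hinj2 : Set.InjOn (fun p : V × V => (ρ p.1, ρ p.2)) (R : Set (V × V)) := by
      intro p hp p' hp' h
      have h1 := mem_product.1 (hR hp)
      have h2 := mem_product.1 (hR hp')
      have h3 := Prod.mk.inj h
      exact Prod.ext (hinj h1.1 h2.1 h3.1) (hinj h1.2 h2.2 h3.2)
    have hc : R'.card = R.card := card_image_of_injOn hinj2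
    have hcf : ∀ b : Fin N × Fin N → Fin P, (R'.filter (fun a => (b a : ℕ) = 0)).card =
        (R.filter (fun p => hit b (ρ p.1) (ρ p.2))).card := by
      intro b
      rw [hR', filter_image, card_image_of_injOn]
      · rfl
      · exact hinj2.mono (by
          intro p hp
          exact (mem_filter.1 (mem_coe.1 hp)).1)
    have h1 := tail (Fin N × Fin N) P hP R' h
    simp only [hcf, hc] at h1
    refine h1.trans ?_
    have hP' : (1 : ℝ) ≤ P := by exact_mod_cast hP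
    have h2 : (0 : ℝ) ≤ 1 - 1 / (2 * (P : ℝ)) := by
      rw [sub_nonneg, div_le_one (by positivity)]
      linarith
    have h3 : 1 - 1 / (2 * (P : ℝ)) ≤ 1 := by
      have : (0 : ℝ) ≤ 1 / (2 * (P : ℝ)) := by positivity
      linarith
    gcongr 2 ^ h * ?_
    exact pow_le_pow_of_le_one h2 h3 hq
  · have h1 := tri k N P hk hP (I.image ρ) τ
    rwa [card_image_of_injOn hinj] at h1

theorem main (hL : LAYER_S) (hN : NUMMAIN_S) (hPa : PARA_S) : MAIN_S := by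
  classical
  unfold MAIN_S
  filter_upwards [hL, hN, hPa] with j hLj hNj hPj
  intro V _ _ ρ σ hV hσ b2 hg hg'
  obtain ⟨h, τ, hhτ, hnum⟩ := hNj
  obtain ⟨-, hP, -, -, -, -, -, hm8, -⟩ := hPj
  set m := mm j with hm
  set Rf : Finset V → Finset (V × V) := fun I => (I ×ˢ I).filter (fun p => p.1 ≠ p.2 ∧
    ∀ z, ¬ ((Gr b2).Adj (σ p.1) z ∧ (Gr b2).Adj (σ p.2) z)) with hRf
  set B : ℝ := (2 : ℝ) ^ h * (1 - 1 / (2 * ((PP j) : ℝ))) ^ (m ^ 2 / 2) +
      ((2 ^ (Nat.choose 3 2) * m ^ 2 * (NN j) ^ (3 - 2)).choose τ : ℝ) *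
        (1 / ((PP j) : ℝ)) ^ (Nat.choose 3 2 * τ) with hB
  have hP1 : (1 : ℝ) ≤ (PP j) := by exact_mod_cast hP
  have hbase : (0 : ℝ) ≤ 1 - 1 / (2 * ((PP j) : ℝ)) := by
    rw [sub_nonneg, div_le_one (by positivity)]
    linarith
  have hB0 : 0 ≤ B := by
    rw [hB]
    positivity
  -- the number of pairs without common neighbour
  have hRcard : ∀ I : Finset V, I.card = m → m ^ 2 / 2 ≤ (Rf I).card := by
    intro I hI
    set J := (I ×ˢ I).filter (fun p => ∃ z, (Gr b2).Adj (σ p.1) z ∧ (Gr b2).Adj (σ p.2) z) with hJ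
    have h1 : 8 * J.card ≤ 3 * m ^ 2 :=
      hLj V σ hσ b2 hg hg' I hI J (filter_subset _ _) (fun p hp => (mem_filter.1 hp).2)
    have h2 : (I ×ˢ I).card ≤ (Rf I).card + (J.card + I.diag.card) := by
      refine le_trans (card_le_card ?_) ((card_union_le _ _).trans
        (Nat.add_le_add_left (card_union_le _ _) _))
      intro p hp
      by_cases hd : p.1 = p.2
      · exact mem_union_right _ (mem_union_right _ (mem_diag.2 ⟨(mem_product.1 hp).1, hd⟩))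
      by_cases hz : ∃ z, (Gr b2).Adj (σ p.1) z ∧ (Gr b2).Adj (σ p.2) z
      · exact mem_union_right _ (mem_union_left _ (mem_filter.2 ⟨hp, hz⟩))
      · refine mem_union_left _ (mem_filter.2 ⟨hp, hd, ?_⟩)
        intro z hz'
        exact hz ⟨z, hz'⟩
    rw [card_product, diag_card, hI] at h2
    have h3 : m * m = m ^ 2 := by ring
    have h4 : 8 * m ≤ m ^ 2 := by
      rw [← h3]
      exact Nat.mul_le_mul_right m hm8
    omega
  set E : Finset V → (Fin (NN j) × Fin (NN j) → Fin (PP j)) → Prop := fun I b =>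
    Set.InjOn ρ (I : Set V) ∧
    (((Rf I).filter (fun p => hit b (ρ p.1) (ρ p.2))).card ≤ h ∨
      ∃ 𝒮 : Finset (Finset (Fin (NN j))), 𝒮.card = τ ∧
        (∀ T ∈ 𝒮, (Gr b).IsNClique 3 T ∧ 2 ≤ (T ∩ I.image ρ).card) ∧
        (∀ T ∈ 𝒮, ∀ T' ∈ 𝒮, T ≠ T' → (T ∩ T').card ≤ 1)) with hE
  have hsub : Kim.pr (PP j) (fun b1 => ¬ MainOK j ρ σ b1 b2) ≤
      Kim.pr (PP j) (fun b1 => ∃ I ∈ powersetCard m (univ : Finset V), E I b1) := by
    refine pr_mono fun b1 hb1 => ?_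
    unfold MainOK at hb1
    push Not at hb1
    obtain ⟨F', 𝒯, hRem, I, hI, hinj, hno⟩ := hb1
    refine ⟨I, mem_powersetCard.2 ⟨subset_univ _, hI⟩, hinj, ?_⟩
    by_contra hc
    push Not at hc
    obtain ⟨hc1, hc2⟩ := hc
    have hc2' : ¬ ∃ 𝒮 : Finset (Finset (Fin (NN j))), 𝒮.card = τ ∧
        (∀ T ∈ 𝒮, (Gr b1).IsNClique 3 T ∧ 2 ≤ (T ∩ I.image ρ).card) ∧
        (∀ T ∈ 𝒮, ∀ T' ∈ 𝒮, T ≠ T' → (T ∩ T').card ≤ 1) := by
      rintro ⟨𝒮, h1, h2, h3⟩
      obtain ⟨T, hT, T', hT', hne, hcard⟩ := hc2 𝒮 h1 h2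
      exact absurd (h3 T hT T' hT' hne) (not_le.2 hcard)
    obtain ⟨p, hp, hadj⟩ := maindet 3 (NN j) (PP j) τ V ρ b1 F' 𝒯 (by norm_num) hRem I (Rf I) hinj
      (filter_subset _ _) (fun p hp => (mem_filter.1 hp).2.1) hc2' (by omega)
    obtain ⟨hp1, hp2⟩ := mem_filter.1 hp
    obtain ⟨z, hz⟩ := hno p.1 (mem_product.1 hp1).1 p.2 (mem_product.1 hp1).2 hadj
    exact hp2.2 z hz
  refine hsub.trans ((pr_exists _ _).trans ?_)
  have hI : ∀ I ∈ powersetCard m (univ : Finset V), Kim.pr (PP j) (E I) ≤ B := by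
    intro I hI
    have hIc := (mem_powersetCard.1 hI).2
    by_cases hinj : Set.InjOn ρ (I : Set V)
    · refine (pr_mono (fun b hb => hb.2)).trans ?_
      have := pr_event hP (by norm_num : 2 ≤ 3) V ρ I hinj (Rf I) (filter_subset _ _) h τ
        (m ^ 2 / 2) (hRcard I hIc)
      rwa [hIc] at this
    · have : Kim.pr (PP j) (E I) ≤ Kim.pr (PP j) (fun _ : Fin (NN j) × Fin (NN j) → Fin (PP j) => False) :=
        pr_mono (fun b hb => hinj hb.1)
      rw [pr_false] at this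
      linarith
  refine (sum_le_sum hI).trans ?_
  rw [sum_const, card_powersetCard, card_univ, hV, nsmul_eq_mul]
  exact hnum

end Pool.Agent.Lib.MP_6383d0_co.Kim.H64
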