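import Mathlib
import Pool.Agent.Lib.MP_6383d0_co.Kim.H64.GAM

/-!
# MP_6383d0_co / Kim: module PARA
-/

namespace Pool.Agent.Lib.MP_6383d0_co.Kim.H64

open Finset Filter

theorem para : PARA_S := by
  unfold PARA_S
  filter_upwards [ev_pow 1 2, ev_pow 1 3, ev_pow (2 ^ 50) 3, ev_pow (67584 ^ 2) 2,
    eventually_ge_atTop 135168] with j h2 h3 h50 h67 hj
  rw [one_mul] at h2 h3
  set N := 2 ^ j with hN
  set P := PP j with hPdef
  have hPP : P = Nat.sqrt (j * N) := rfl
  have hPsq : P ^ 2 ≤ j * N := Nat.sqrt_le' (j * N)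
  have hPsq' : j * N < (P + 1) ^ 2 := Nat.lt_succ_sqrt' (j * N)
  have hlow : ∀ K : ℕ, K ^ 2 ≤ j * N → K ≤ P := fun K hK => Nat.le_sqrt'.2 hK
  have hNN : NN j = N := rfl
  have hj1 : 1 ≤ j := by omega
  have hNjN : N ≤ j * N := Nat.le_mul_of_pos_left _ (by omega)
  have hPj : 67584 * j ≤ P := by
    apply hlow
    calc (67584 * j) ^ 2 = 67584 ^ 2 * j ^ 2 := by ring
      _ ≤ N := h67
      _ ≤ j * N := hNjN
  have hPpos : 0 < P := by omega
  have h4 : j * N ≤ 2 * P ^ 2 := by nlinarith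
  set D0 := N / P with hD0
  have hD0P : D0 * P ≤ N := Nat.div_mul_le_self N P
  have hD0P' : N < P * (D0 + 1) := by
    rw [hD0]
    exact Nat.lt_mul_div_succ N hPpos
  have hDD : DD j = 6 * (D0 + 1) := rfl
  have hmm : mm j = AA * j * P := rfl
  have hAA : AA = 33554432 := by unfold AA; norm_num
  have h6N : 6 * N ≤ P * DD j := by
    rw [hDD]
    nlinarith
  have hjP : j * P ≤ N := by
    have : (j * P) ^ 2 ≤ N ^ 2 := by
      calc (j * P) ^ 2 = j ^ 2 * P ^ 2 := by ring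
        _ ≤ j ^ 2 * (j * N) := Nat.mul_le_mul_left _ hPsq
        _ = j ^ 3 * N := by ring
        _ ≤ N * N := Nat.mul_le_mul_right _ h3
        _ = N ^ 2 := by ring
    exact le_of_pow_le_pow_left₀ (by norm_num) (Nat.zero_le _) this
  have hjD0 : j ≤ D0 := (Nat.le_div_iff_mul_le hPpos).2 hjP
  have hjD0P : j * D0 ≤ P + 2 := by
    have h1 : (j * D0) * P ≤ (P + 2) * P := by
      calc (j * D0) * P = j * (D0 * P) := by ring
        _ ≤ j * N := Nat.mul_le_mul_left _ hD0P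
        _ ≤ (P + 2) * P := by nlinarith
    exact Nat.le_of_mul_le_mul_right h1 hPpos
  have hss : 49152 * DD j ≤ ss j := by
    have hss' : ss j = mm j / (48 * j ^ 2) := rfl
    rw [hss', Nat.le_div_iff_mul_le (by positivity), hDD, hmm, hAA]
    have h1 : 14155776 * ((D0 + 1) * j) ≤ 33554432 * P := by
      have h5 : (D0 + 1) * j = j * D0 + j := by ring
      rw [h5]
      omega
    calc 49152 * (6 * (D0 + 1)) * (48 * j ^ 2) = (14155776 * ((D0 + 1) * j)) * j := by ring
      _ ≤ (33554432 * P) * j := Nat.mul_le_mul_right _ h1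
      _ = 33554432 * j * P := by ring
  have hmmN : mm j ≤ N := by
    have : (mm j) ^ 2 ≤ N ^ 2 := by
      rw [hmm, hAA]
      calc (33554432 * j * P) ^ 2 = 2 ^ 50 * j ^ 2 * P ^ 2 := by ring
        _ ≤ 2 ^ 50 * j ^ 2 * (j * N) := Nat.mul_le_mul_left _ hPsq
        _ = 2 ^ 50 * j ^ 3 * N := by ring
        _ ≤ N * N := Nat.mul_le_mul_right _ h50
        _ = N ^ 2 := by ring
    exact le_of_pow_le_pow_left₀ (by norm_num) (Nat.zero_le _) this
  have hDP : 5632 * DD j ≤ P := by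
    rw [hDD]
    have h1 : 67584 * D0 ≤ P := by
      have : (67584 * D0) * P ≤ P * P := by
        calc (67584 * D0) * P = 67584 * (D0 * P) := by ring
          _ ≤ 67584 * N := Nat.mul_le_mul_left _ hD0P
          _ ≤ P * P := by nlinarith
      exact Nat.le_of_mul_le_mul_right this hPpos
    omega
  have hm8 : 8 ≤ mm j := by
    rw [hmm, hAA]
    have : 1 ≤ j * P := Nat.mul_pos (by omega) hPpos
    nlinarith
  refine ⟨by omega, hPpos, hPsq, h4, ?_, hss, hmmN, hm8, ?_, hDP, h2, h6N, ?_⟩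
  · omega
  · exact Nat.mul_div_le (mm j) (48 * j ^ 2)
  · omega

end Pool.Agent.Lib.MP_6383d0_co.Kim.H64
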