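import Mathlib
import Pool.Agent.Lib.MP_6383d0_co.Kim.H64.PARA

/-!
# MP_6383d0_co / Kim: modules NUMMID, NUMHIGH
-/

namespace Pool.Agent.Lib.MP_6383d0_co.Kim.H64

open Finset Filter

theorem choose_mul_le {s T P : ℕ} (hT : 1 ≤ T) :
    (s.choose T : ℝ) * (1 / (P : ℝ)) ^ T ≤ (Real.exp 1 * s / (T * P)) ^ T := by
  calc (s.choose T : ℝ) * (1 / (P : ℝ)) ^ T
      ≤ (Real.exp 1 * s / T) ^ T * (1 / (P : ℝ)) ^ T := by
        gcongr
        exact choose s T hT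
    _ = (Real.exp 1 * s / (T * P)) ^ T := by
        rw [← mul_pow]
        congr 1
        rw [div_mul_div_comm, mul_one]

theorem choose_two_pow_le (j s : ℕ) : (((2 ^ j).choose s : ℕ) : ℝ) ≤ 2 ^ (j * s) := by
  have : (2 ^ j).choose s ≤ 2 ^ (j * s) := by
    rw [pow_mul]
    exact Nat.choose_le_pow _ _
  exact_mod_cast this

theorem t_mul_le {T : ℕ} (hT : 2 ≤ T) : (T : ℝ) * (1 / 4) ^ (T - 2) ≤ 2 := by
  obtain ⟨u, rfl⟩ := Nat.exists_eq_add_of_le hT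
  have h : ∀ u : ℕ, ((2 + u : ℕ) : ℝ) * (1 / 4) ^ (2 + u - 2) ≤ 2 := by
    intro u
    induction u with
    | zero => norm_num
    | succ u ih =>
      have h1 : 2 + (u + 1) - 2 = (2 + u - 2) + 1 := by omega
      rw [h1, pow_succ]
      have h2 : (0 : ℝ) ≤ (1 / 4) ^ (2 + u - 2) := by positivity
      push_cast at ih ⊢
      nlinarith [(Nat.cast_nonneg u : (0 : ℝ) ≤ (u : ℝ))]
  exact h u

theorem nummid : NUMMID_S := by
  unfold NUMMID_S
  filter_upwards [para, eventually_ge_atTop 884736] with j hPj hj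
  obtain ⟨hj8, hP, -, hPsq2, -⟩ := hPj
  intro s T hs hT h11 hmid
  have hNN : NN j = 2 ^ j := rfl
  set P := PP j with hPdef
  have hqq : qq j s T = s ^ 2 / (512 * T ^ 3) + 1 := by
    unfold qq
    rw [if_pos hmid]
  rw [hqq]
  set q := s ^ 2 / (512 * T ^ 3) + 1 with hq
  have hP' : (0 : ℝ) < (P : ℝ) := by exact_mod_cast hP
  have hT' : (0 : ℝ) < (T : ℝ) := by
    have : 0 < T := by omega
    exact_mod_cast this
  have hs' : (0 : ℝ) < (s : ℝ) := by exact_mod_cast hs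
  have hj' : (884736 : ℝ) ≤ (j : ℝ) := by exact_mod_cast hj
  have hj0 : (0 : ℝ) < (j : ℝ) := by linarith
  have hq1 : s ^ 2 < 512 * T ^ 3 * q := by
    rw [hq]
    exact Nat.lt_mul_div_succ (s ^ 2) (by positivity)
  have hq0 : (0 : ℝ) < (q : ℝ) := by positivity
  have hsj : s * j ≤ q := by
    have h1 : s * j ≤ s ^ 2 / (512 * T ^ 3) := by
      rw [Nat.le_div_iff_mul_le (by positivity)]
      calc s * j * (512 * T ^ 3) = s * (512 * T ^ 3 * j) := by ring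
        _ ≤ s * s := Nat.mul_le_mul_left _ hmid
        _ = s ^ 2 := by ring
    omega
  -- a ≤ 1/4
  set a : ℝ := Real.exp 1 * s / (T * P) with ha
  have ha0 : 0 ≤ a := by positivity
  have ha4 : a ≤ 1 / 4 := by
    rw [ha, div_le_div_iff₀ (by positivity) (by norm_num)]
    have h1 : (11 : ℝ) * s ≤ T * P := by exact_mod_cast h11
    nlinarith [Real.exp_one_lt_d9]
  have hx : (s.choose T : ℝ) * (1 / (P : ℝ)) ^ T ≤ a ^ T := choose_mul_le (by omega)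
  have hx0 : (0 : ℝ) ≤ (s.choose T : ℝ) * (1 / (P : ℝ)) ^ T := by positivity
  have hc : (((NN j).choose q : ℕ) : ℝ) ≤ (Real.exp 1 * ((2 ^ j : ℕ) : ℝ) / q) ^ q := by
    have := choose (NN j) q (by rw [hq]; exact Nat.le_add_left 1 _)
    rwa [hNN] at this
  have hbase : Real.exp 1 * ((2 ^ j : ℕ) : ℝ) / q * a ^ T ≤ 1 / 16 := by
    have h2 : a ^ T = a ^ 2 * a ^ (T - 2) := by
      rw [← pow_add]
      congr 1
      omega
    have h3 : a ^ (T - 2) ≤ (1 / 4) ^ (T - 2) := pow_le_pow_left₀ ha0 ha4 _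
    have hN0 : (0 : ℝ) < ((2 ^ j : ℕ) : ℝ) := by positivity
    have h4 : Real.exp 1 * ((2 ^ j : ℕ) : ℝ) / q ≤
        Real.exp 1 * ((2 ^ j : ℕ) : ℝ) * (512 * (T : ℝ) ^ 3) / (s : ℝ) ^ 2 := by
      rw [div_le_div_iff₀ hq0 (by positivity)]
      have h5 : (s : ℝ) ^ 2 ≤ 512 * (T : ℝ) ^ 3 * q := by exact_mod_cast hq1.le
      have h6 : 0 ≤ Real.exp 1 * ((2 ^ j : ℕ) : ℝ) := by positivity
      nlinarith
    have h7 : (j : ℝ) * ((2 ^ j : ℕ) : ℝ) ≤ 2 * (P : ℝ) ^ 2 := by exact_mod_cast hPsq2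
    calc Real.exp 1 * ((2 ^ j : ℕ) : ℝ) / q * a ^ T
        ≤ Real.exp 1 * ((2 ^ j : ℕ) : ℝ) * (512 * (T : ℝ) ^ 3) / (s : ℝ) ^ 2 *
          (a ^ 2 * (1 / 4) ^ (T - 2)) := by
          rw [h2]
          gcongr
      _ = 512 * (Real.exp 1) ^ 3 * ((2 ^ j : ℕ) : ℝ) / (P : ℝ) ^ 2 *
          ((T : ℝ) * (1 / 4) ^ (T - 2)) := by
          rw [ha]
          field_simp
      _ ≤ 512 * (Real.exp 1) ^ 3 * ((2 ^ j : ℕ) : ℝ) / (P : ℝ) ^ 2 * 2 := by
          gcongr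
          exact t_mul_le hT
      _ ≤ 1 / 16 := by
          rw [div_mul_eq_mul_div, div_le_div_iff₀ (by positivity) (by norm_num)]
          have he3 : (Real.exp 1) ^ 3 ≤ 27 := by
            calc (Real.exp 1) ^ 3 ≤ 3 ^ 3 :=
                  pow_le_pow_left₀ (Real.exp_pos 1).le exp_one_lt.le 3
              _ = 27 := by norm_num
          have h8 : 884736 * ((2 ^ j : ℕ) : ℝ) ≤ 2 * (P : ℝ) ^ 2 := by
            refine le_trans ?_ h7
            gcongr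
          have h9 : (Real.exp 1) ^ 3 * ((2 ^ j : ℕ) : ℝ) ≤ 27 * ((2 ^ j : ℕ) : ℝ) := by gcongr
          linarith
  have hb0 : 0 ≤ Real.exp 1 * ((2 ^ j : ℕ) : ℝ) / q * a ^ T := by positivity
  have h10 : (((NN j).choose q : ℕ) : ℝ) * ((s.choose T : ℝ) * (1 / (P : ℝ)) ^ T) ^ q ≤
      (1 / 16) ^ (s * j) := by
    calc (((NN j).choose q : ℕ) : ℝ) * ((s.choose T : ℝ) * (1 / (P : ℝ)) ^ T) ^ q
        ≤ (Real.exp 1 * ((2 ^ j : ℕ) : ℝ) / q) ^ q * (a ^ T) ^ q := by gcongr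
      _ = (Real.exp 1 * ((2 ^ j : ℕ) : ℝ) / q * a ^ T) ^ q := by rw [mul_pow]
      _ ≤ (1 / 16) ^ q := pow_le_pow_left₀ hb0 hbase q
      _ ≤ (1 / 16) ^ (s * j) := pow_le_pow_of_le_one (by norm_num) (by norm_num) hsj
  calc (((NN j).choose s : ℕ) : ℝ) * ((((NN j).choose q : ℕ) : ℝ) *
        ((s.choose T : ℝ) * (1 / (P : ℝ)) ^ T) ^ q)
      ≤ 2 ^ (j * s) * (1 / 16) ^ (s * j) := by
        apply mul_le_mul _ h10 (by positivity) (by positivity)
        rw [hNN]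
        exact choose_two_pow_le j s
    _ = (1 / 8) ^ (s * j) := by
        rw [mul_comm j s, ← mul_pow]
        norm_num
    _ ≤ (1 / 8) ^ (1 * j) := by
        apply pow_le_pow_of_le_one (by norm_num) (by norm_num)
        exact Nat.mul_le_mul_right _ hs
    _ = (1 / 2) ^ (3 * j) := by
        rw [one_mul, pow_mul]
        norm_num

theorem numhigh : NUMHIGH_S := by
  unfold NUMHIGH_S
  filter_upwards [para, ev_pow (((3 * 2 ^ 25) ^ 7) ^ 6) 63] with j hPj hev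
  obtain ⟨hj8, hP, hPsq, -, hs1, hDs, -, -, -, -, -, h6N, -⟩ := hPj
  intro s T hss hsm hT hhigh
  have hNN : NN j = 2 ^ j := rfl
  have hmm : mm j = 2 ^ 25 * j * PP j := rfl
  have hqq : qq j s T = 48 * s / T + 1 := by
    unfold qq
    rw [if_neg (not_le.2 hhigh)]
  rw [hqq]
  set P := PP j with hPdef
  set q := 48 * s / T + 1 with hq
  have hTpos : 0 < T := by omega
  have hjpos : 0 < j := by omega
  have hP' : (0 : ℝ) < (P : ℝ) := by exact_mod_cast hP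
  have hT' : (0 : ℝ) < (T : ℝ) := by exact_mod_cast hTpos
  -- T ^ 6 * j ^ 3 ≥ N
  have hT6 : 2 ^ j ≤ T ^ 6 * j ^ 3 := by
    have h1 : 294912 * 2 ^ j ≤ (512 * T ^ 3 * j) * P := by
      calc 294912 * 2 ^ j = 49152 * (6 * NN j) := by rw [hNN]; ring
        _ ≤ 49152 * (P * DD j) := Nat.mul_le_mul_left _ h6N
        _ = (49152 * DD j) * P := by ring
        _ ≤ ss j * P := Nat.mul_le_mul_right _ hDs
        _ ≤ (512 * T ^ 3 * j) * P := Nat.mul_le_mul_right _ (by omega)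
    have h2 : (294912 * 2 ^ j) ^ 2 ≤ (512 * T ^ 3 * j) ^ 2 * (j * 2 ^ j) := by
      calc (294912 * 2 ^ j) ^ 2 ≤ ((512 * T ^ 3 * j) * P) ^ 2 := Nat.pow_le_pow_left h1 2
        _ = (512 * T ^ 3 * j) ^ 2 * P ^ 2 := by ring
        _ ≤ (512 * T ^ 3 * j) ^ 2 * (j * 2 ^ j) := Nat.mul_le_mul_left _ hPsq
    have h3 : (512 ^ 2 * 2 ^ j) * 2 ^ j ≤ (512 ^ 2 * (T ^ 6 * j ^ 3)) * 2 ^ j := by
      calc (512 ^ 2 * 2 ^ j) * 2 ^ j ≤ (294912 * 2 ^ j) ^ 2 := by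
            have : (294912 * 2 ^ j) ^ 2 = (294912 ^ 2 * 2 ^ j) * 2 ^ j := by ring
            rw [this]
            gcongr
            norm_num
        _ ≤ (512 * T ^ 3 * j) ^ 2 * (j * 2 ^ j) := h2
        _ = (512 ^ 2 * (T ^ 6 * j ^ 3)) * 2 ^ j := by ring
    have h4 := Nat.le_of_mul_le_mul_right h3 (by positivity)
    exact Nat.le_of_mul_le_mul_left h4 (by norm_num)
  set B := 3 * 2 ^ 25 * j with hB
  have hTK : (3 * 2 ^ 25) ^ 7 * j ^ 10 ≤ T := by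
    by_contra hc
    push Not at hc
    have h1 : T ^ 6 < ((3 * 2 ^ 25) ^ 7 * j ^ 10) ^ 6 := Nat.pow_lt_pow_left hc (by norm_num)
    have h2 : T ^ 6 * j ^ 3 < ((3 * 2 ^ 25) ^ 7) ^ 6 * j ^ 63 := by
      calc T ^ 6 * j ^ 3 < ((3 * 2 ^ 25) ^ 7 * j ^ 10) ^ 6 * j ^ 3 :=
            Nat.mul_lt_mul_of_pos_right h1 (by positivity)
        _ = ((3 * 2 ^ 25) ^ 7) ^ 6 * j ^ 63 := by ring
    omega
  have hBT7 : B ^ 7 * 2 ^ j ≤ T ^ 7 := by
    have h1 : (B ^ 7 * 2 ^ j) * j ^ 3 ≤ T ^ 7 * j ^ 3 := by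
      calc (B ^ 7 * 2 ^ j) * j ^ 3 = ((3 * 2 ^ 25) ^ 7 * j ^ 10) * 2 ^ j := by rw [hB]; ring
        _ ≤ T * (T ^ 6 * j ^ 3) := Nat.mul_le_mul hTK hT6
        _ = T ^ 7 * j ^ 3 := by ring
    exact Nat.le_of_mul_le_mul_right h1 (by positivity)
  have hBT : B ≤ T := by
    have h1 : B ^ 7 ≤ T ^ 7 := le_trans (Nat.le_mul_of_pos_right _ (by positivity)) hBT7
    exact le_of_pow_le_pow_left₀ (by norm_num) (Nat.zero_le _) h1
  have hT56 : 56 ≤ T := by omega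
  -- x ≤ (B/T)^T
  have hx : (s.choose T : ℝ) * (1 / (P : ℝ)) ^ T ≤ ((B : ℝ) / T) ^ T := by
    refine (choose_mul_le (by omega)).trans (pow_le_pow_left₀ (by positivity) ?_ _)
    rw [div_le_div_iff₀ (by positivity) hT']
    have h1 : (s : ℝ) ≤ 2 ^ 25 * j * P := by
      have : s ≤ 2 ^ 25 * j * P := hsm
      exact_mod_cast this
    have h2 : (B : ℝ) = 3 * (2 ^ 25 * j) := by
      rw [hB]
      push_cast
      ring
    rw [h2]
    have h3 : Real.exp 1 * s ≤ 3 * (2 ^ 25 * j * P) := by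
      apply mul_le_mul exp_one_lt.le h1 (by positivity) (by norm_num)
    nlinarith
  have hx0 : (0 : ℝ) ≤ (s.choose T : ℝ) * (1 / (P : ℝ)) ^ T := by positivity
  have hTq : 48 * s < T * q := by
    rw [hq]
    exact Nat.lt_mul_div_succ (48 * s) hTpos
  have hq1 : 1 ≤ q := by
    rw [hq]
    exact Nat.le_add_left 1 _
  have hTq56 : 56 * q ≤ T * q := Nat.mul_le_mul_right _ hT56
  have h7 : 7 * (s + q + 3) ≤ T * q := by omega
  have hBT0 : (0 : ℝ) ≤ (B : ℝ) / T := by positivity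
  have hBT1 : (B : ℝ) / T ≤ 1 := by
    rw [div_le_one hT']
    exact_mod_cast hBT
  have hpow : ((B : ℝ) / T) ^ (T * q) ≤ (1 / 2) ^ (j * (s + q + 3)) := by
    calc ((B : ℝ) / T) ^ (T * q) ≤ ((B : ℝ) / T) ^ (7 * (s + q + 3)) :=
          pow_le_pow_of_le_one hBT0 hBT1 h7
      _ = (((B : ℝ) / T) ^ 7) ^ (s + q + 3) := by rw [pow_mul]
      _ ≤ ((1 / 2) ^ j) ^ (s + q + 3) := by
          apply pow_le_pow_left₀ (by positivity)
          rw [div_pow, one_div, inv_pow, ← one_div, div_le_div_iff₀ (by positivity) (by positivity)]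
          have : (B : ℝ) ^ 7 * 2 ^ j ≤ (T : ℝ) ^ 7 := by exact_mod_cast hBT7
          linarith
      _ = (1 / 2) ^ (j * (s + q + 3)) := by rw [← pow_mul]
  calc (((NN j).choose s : ℕ) : ℝ) * ((((NN j).choose q : ℕ) : ℝ) *
        ((s.choose T : ℝ) * (1 / (P : ℝ)) ^ T) ^ q)
      ≤ 2 ^ (j * s) * (2 ^ (j * q) * (((B : ℝ) / T) ^ T) ^ q) := by
        have h1 := choose_two_pow_le j s
        have h2 := choose_two_pow_le j q
        rw [hNN]
        gcongr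
    _ = 2 ^ (j * s) * (2 ^ (j * q) * ((B : ℝ) / T) ^ (T * q)) := by
        rw [pow_mul ((B : ℝ) / T) T q]
    _ ≤ 2 ^ (j * s) * (2 ^ (j * q) * (1 / 2) ^ (j * (s + q + 3))) := by gcongr
    _ = (1 / 2) ^ (3 * j) := by
        have h1 : j * (s + q + 3) = j * s + (j * q + 3 * j) := by ring
        rw [h1, pow_add, pow_add]
        have h2 : ∀ n : ℕ, (2 : ℝ) ^ n * (1 / 2) ^ n = 1 := by
          intro n
          rw [← mul_pow]
          norm_num
        calc (2 : ℝ) ^ (j * s) * (2 ^ (j * q) * ((1 / 2) ^ (j * s) *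
              ((1 / 2) ^ (j * q) * (1 / 2) ^ (3 * j))))
            = (2 ^ (j * s) * (1 / 2) ^ (j * s)) * ((2 ^ (j * q) * (1 / 2) ^ (j * q)) *
              (1 / 2) ^ (3 * j)) := by ring
          _ = (1 / 2) ^ (3 * j) := by rw [h2, h2, one_mul, one_mul]

end Pool.Agent.Lib.MP_6383d0_co.Kim.H64
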