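import Mathlib
import Pool.Agent.Lib.MP_6383d0_co.Kim.H64.PARA

/-!
# MP_6383d0_co / Kim: module NUMMAIN
-/

namespace Pool.Agent.Lib.MP_6383d0_co.Kim.H64

open Finset Filter

theorem exp_neg_one_le : Real.exp (-1) ≤ 3 / 8 := by
  have h : (8 / 3 : ℝ) ≤ Real.exp 1 := by
    have := Real.exp_one_gt_d9
    linarith
  rw [Real.exp_neg]
  calc (Real.exp 1)⁻¹ ≤ (8 / 3 : ℝ)⁻¹ := inv_anti₀ (by norm_num) h
    _ = 3 / 8 := by norm_num

theorem one_sub_pow_le {P : ℕ} (hP : 0 < P) : (1 - 1 / (2 * (P : ℝ))) ^ (2 * P) ≤ 3 / 8 := by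
  have hP' : (1 : ℝ) ≤ P := by exact_mod_cast hP
  have h0 : (0 : ℝ) ≤ 1 - 1 / (2 * (P : ℝ)) := by
    rw [sub_nonneg, div_le_one (by positivity)]
    linarith
  have h1 : 1 - 1 / (2 * (P : ℝ)) ≤ Real.exp (-(1 / (2 * (P : ℝ)))) := by
    have := Real.add_one_le_exp (-(1 / (2 * (P : ℝ))))
    linarith
  calc (1 - 1 / (2 * (P : ℝ))) ^ (2 * P) ≤ (Real.exp (-(1 / (2 * (P : ℝ))))) ^ (2 * P) :=
        pow_le_pow_left₀ h0 h1 _
    _ = Real.exp (-1) := by
        rw [← Real.exp_nat_mul]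
        congr 1
        push_cast
        field_simp
    _ ≤ 3 / 8 := exp_neg_one_le

theorem nummain : NUMMAIN_S := by
  unfold NUMMAIN_S
  filter_upwards [para, eventually_ge_atTop 6144] with j hPj hj
  obtain ⟨hj8, hP, hPsq, hPsq2, -, -, hmN, hm8, -, -, hj2, -, -⟩ := hPj
  have hAA : AA = 33554432 := by unfold AA; norm_num
  set P := PP j with hPdef
  set m := mm j with hm
  have hmdef : m = 33554432 * j * P := by
    rw [hm, mm, hAA]
  have hNN : NN j = 2 ^ j := rfl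
  set q := j * m with hq
  have hP' : (0 : ℝ) < (P : ℝ) := by exact_mod_cast hP
  have hm0 : (0 : ℝ) < (m : ℝ) := by
    have : 0 < m := by omega
    exact_mod_cast this
  have hj0 : (0 : ℝ) < (j : ℝ) := by
    have : 0 < j := by omega
    exact_mod_cast this
  have hq64 : 64 ≤ q := by
    rw [hq]
    nlinarith
  refine ⟨4194304 * q, 524288 * q, by omega, ?_⟩
  -- first term
  have hsq : m ^ 2 / 2 = (2 * P) * (8388608 * q) := by
    have : m ^ 2 = 2 * ((2 * P) * (8388608 * q)) := by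
      rw [hq, sq]
      nth_rewrite 1 [hmdef]
      ring
    rw [this, Nat.mul_div_cancel_left _ (by norm_num)]
  have h1 : (2 : ℝ) ^ (4194304 * q) * (1 - 1 / (2 * (P : ℝ))) ^ (m ^ 2 / 2) ≤
      (1 / 2) ^ (524288 * q) := by
    rw [hsq, pow_mul (1 - 1 / (2 * (P : ℝ))) (2 * P)]
    have hb0 : (0 : ℝ) ≤ (1 - 1 / (2 * (P : ℝ))) ^ (2 * P) := by
      apply pow_nonneg
      have : (1 : ℝ) ≤ P := by exact_mod_cast hP
      rw [sub_nonneg, div_le_one (by positivity)]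
      linarith
    calc (2 : ℝ) ^ (4194304 * q) * ((1 - 1 / (2 * (P : ℝ))) ^ (2 * P)) ^ (8388608 * q)
        ≤ (2 : ℝ) ^ (4194304 * q) * (3 / 8) ^ (8388608 * q) := by
          gcongr
          exact one_sub_pow_le hP
      _ = (9 / 32) ^ (4194304 * q) := by
          have : 8388608 * q = 2 * (4194304 * q) := by ring
          rw [this, pow_mul (3 / 8 : ℝ) 2, ← mul_pow]
          norm_num
      _ ≤ (1 / 2) ^ (4194304 * q) := by
          apply pow_le_pow_left₀ (by norm_num) (by norm_num)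
      _ ≤ (1 / 2) ^ (524288 * q) :=
          pow_le_pow_of_le_one (by norm_num) (by norm_num) (by omega)
  -- second term
  have h2 : ((2 ^ (Nat.choose 3 2) * m ^ 2 * (NN j) ^ (3 - 2)).choose (524288 * q) : ℝ) *
      (1 / (P : ℝ)) ^ (Nat.choose 3 2 * (524288 * q)) ≤ (1 / 2) ^ (524288 * q) := by
    have hc : Nat.choose 3 2 = 3 := by decide
    rw [hc, pow_mul (1 / (P : ℝ)) 3]
    have h3 := choose (2 ^ 3 * m ^ 2 * (NN j) ^ (3 - 2)) (524288 * q) (by omega)
    calc ((2 ^ 3 * m ^ 2 * (NN j) ^ (3 - 2)).choose (524288 * q) : ℝ) *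
          ((1 / (P : ℝ)) ^ 3) ^ (524288 * q)
        ≤ (Real.exp 1 * ((2 ^ 3 * m ^ 2 * (NN j) ^ (3 - 2) : ℕ) : ℝ) /
            ((524288 * q : ℕ) : ℝ)) ^ (524288 * q) * ((1 / (P : ℝ)) ^ 3) ^ (524288 * q) := by
          gcongr
      _ = ((Real.exp 1 * ((2 ^ 3 * m ^ 2 * (NN j) ^ (3 - 2) : ℕ) : ℝ) /
            ((524288 * q : ℕ) : ℝ)) * (1 / (P : ℝ)) ^ 3) ^ (524288 * q) := by
          rw [mul_pow]
      _ ≤ (1 / 2) ^ (524288 * q) := by
          apply pow_le_pow_left₀ (by positivity)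
          have hcast : ((2 ^ 3 * m ^ 2 * (NN j) ^ (3 - 2) : ℕ) : ℝ) =
              8 * (m : ℝ) ^ 2 * ((2 ^ j : ℕ) : ℝ) := by
            rw [hNN]
            push_cast
            norm_num
          have hqc : ((524288 * q : ℕ) : ℝ) = 524288 * ((j : ℝ) * (m : ℝ)) := by
            rw [hq]
            push_cast
            ring
          have hmc : (m : ℝ) = 33554432 * (j : ℝ) * (P : ℝ) := by
            rw [hmdef]
            push_cast
            ring
          rw [hcast, hqc]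
          have h4 : Real.exp 1 * (8 * (m : ℝ) ^ 2 * ((2 ^ j : ℕ) : ℝ)) /
              (524288 * ((j : ℝ) * (m : ℝ))) * (1 / (P : ℝ)) ^ 3 =
              Real.exp 1 * 512 * ((2 ^ j : ℕ) : ℝ) / (P : ℝ) ^ 2 := by
            have : (m : ℝ) ^ 2 = (m : ℝ) * (33554432 * (j : ℝ) * (P : ℝ)) := by
              rw [sq]
              nth_rewrite 2 [hmc]
              rfl
            rw [this]
            field_simp
            ring
          rw [h4, div_le_div_iff₀ (by positivity) (by norm_num)]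
          have h5 : (j : ℝ) * ((2 ^ j : ℕ) : ℝ) ≤ 2 * (P : ℝ) ^ 2 := by exact_mod_cast hPsq2
          have h6 : (6144 : ℝ) ≤ j := by exact_mod_cast hj
          have h7 : (0 : ℝ) ≤ ((2 ^ j : ℕ) : ℝ) := by positivity
          nlinarith [exp_one_lt, mul_le_mul_of_nonneg_right h6 h7,
            mul_le_mul_of_nonneg_right exp_one_lt.le h7]
  have h3 : (((j ^ 2 * 2 ^ j).choose m : ℕ) : ℝ) ≤ (2 : ℝ) ^ (2 * q) := by
    have : (j ^ 2 * 2 ^ j).choose m ≤ 2 ^ (2 * q) := by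
      calc (j ^ 2 * 2 ^ j).choose m ≤ (j ^ 2 * 2 ^ j) ^ m := Nat.choose_le_pow _ _
        _ ≤ (2 ^ j * 2 ^ j) ^ m := Nat.pow_le_pow_left (Nat.mul_le_mul_right _ hj2) m
        _ = 2 ^ (2 * q) := by
            rw [hq, ← pow_add, ← pow_mul]
            congr 1
            ring
    exact_mod_cast this
  have h12 : (2 : ℝ) ^ (4194304 * q) * (1 - 1 / (2 * (P : ℝ))) ^ (m ^ 2 / 2) +
      ((2 ^ (Nat.choose 3 2) * m ^ 2 * (NN j) ^ (3 - 2)).choose (524288 * q) : ℝ) *
        (1 / (P : ℝ)) ^ (Nat.choose 3 2 * (524288 * q)) ≤ 2 * (1 / 2) ^ (524288 * q) := by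
    linarith
  calc (((j ^ 2 * 2 ^ j).choose m : ℕ) : ℝ) * ((2 : ℝ) ^ (4194304 * q) *
        (1 - 1 / (2 * (P : ℝ))) ^ (m ^ 2 / 2) +
      ((2 ^ (Nat.choose 3 2) * m ^ 2 * (NN j) ^ (3 - 2)).choose (524288 * q) : ℝ) *
        (1 / (P : ℝ)) ^ (Nat.choose 3 2 * (524288 * q)))
      ≤ (2 : ℝ) ^ (2 * q) * (2 * (1 / 2) ^ (524288 * q)) := by
        apply mul_le_mul h3 h12 _ (by positivity)
        have hb : (0 : ℝ) ≤ 1 - 1 / (2 * (P : ℝ)) := by
          have : (1 : ℝ) ≤ P := by exact_mod_cast hP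
          rw [sub_nonneg, div_le_one (by positivity)]
          linarith
        positivity
    _ ≤ (2 : ℝ) ^ (2 * q) * (2 * (1 / 2) ^ (2 * q + 5)) := by
        gcongr 2 ^ (2 * q) * (2 * ?_)
        exact pow_le_pow_of_le_one (by norm_num) (by norm_num) (by omega)
    _ = 1 / 16 := by
        rw [pow_add]
        have : (2 : ℝ) ^ (2 * q) * (1 / 2) ^ (2 * q) = 1 := by
          rw [← mul_pow]
          norm_num
        calc (2 : ℝ) ^ (2 * q) * (2 * ((1 / 2) ^ (2 * q) * (1 / 2) ^ 5))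
            = ((2 : ℝ) ^ (2 * q) * (1 / 2) ^ (2 * q)) * (2 * (1 / 2) ^ 5) := by ring
          _ = 1 / 16 := by
              rw [this]
              norm_num

end Pool.Agent.Lib.MP_6383d0_co.Kim.H64
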