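import Mathlib
import Pool.Agent.Lib.MP_6383d0_co.Kim.H64.PARA

/-!
# MP_6383d0_co / Kim: module RAM
-/

namespace Pool.Agent.Lib.MP_6383d0_co.Kim.H64

open Finset Filter

/-- Transfer of the graphs of `KIM_S` to `Fin n`. -/
theorem transfer {W : Type} [Fintype W] [DecidableEq W] (G : SimpleGraph W) (k t : ℕ)
    (hk : G.CliqueFree k) (_ht : 0 < t) (hI : ∀ I : Finset W, I.card = t → ¬ G.IsIndepSet I) :
    ∃ H : SimpleGraph (Fin (Fintype.card W)), H.CliqueFree k ∧ H.indepNum < t := by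
  classical
  refine ⟨G.overFin rfl, ?_, ?_⟩
  · exact hk.comap (SimpleGraph.IsIndContained.isContained
      ⟨(G.overFinIso rfl).symm.toEmbedding⟩)
  · by_contra hc
    push Not at hc
    obtain ⟨s, hs⟩ := (G.overFin (rfl : Fintype.card W = Fintype.card W)).exists_isNIndepSet_indepNum
    have hsc : t ≤ s.card := by
      rw [hs.card_eq]
      exact hc
    obtain ⟨s', hs', hs'c⟩ := exists_subset_card_eq hsc
    have φ := (G.overFinIso (rfl : Fintype.card W = Fintype.card W)).symm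
    refine hI (s'.map φ.toEquiv.toEmbedding) (by rw [card_map, hs'c]) ?_
    intro x hx y hy hxy
    simp only [Finset.coe_map, Set.mem_image] at hx hy
    obtain ⟨x', hx', rfl⟩ := hx
    obtain ⟨y', hy', rfl⟩ := hy
    intro hadj
    have := φ.map_adj_iff.1 hadj
    exact hs.isIndepSet (hs' hx') (hs' hy') this.ne this

theorem mm_mono : Monotone mm := by
  intro i j hij
  unfold mm PP
  have h1 : i * 2 ^ i ≤ j * 2 ^ j := Nat.mul_le_mul hij (Nat.pow_le_pow_right (by norm_num) hij)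
  exact Nat.mul_le_mul (Nat.mul_le_mul_left _ hij) (Nat.sqrt_le_sqrt h1)

theorem le_mm {j : ℕ} (hj : 1 ≤ j) : j ≤ mm j := by
  unfold mm PP AA
  have h1 : 1 ≤ Nat.sqrt (j * 2 ^ j) := by
    rw [Nat.le_sqrt']
    have : 1 ≤ j * 2 ^ j := Nat.mul_pos (by omega) (by positivity)
    simpa using this
  nlinarith

theorem ram (hK : KIM_S) : RAM_S := by
  classical
  have hK' := hK.and para
  rw [eventually_atTop] at hK'
  obtain ⟨j0, hj0⟩ := hK'
  set c : ℝ := Real.log 2 / (9 * 2 ^ 55) with hc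
  have hlog2 : 0 < Real.log 2 := Real.log_pos (by norm_num)
  refine ⟨c, by positivity, ?_⟩
  rw [eventually_atTop]
  refine ⟨3 * mm (j0 + 1), fun t ht => ?_⟩
  -- the largest admissible j
  set j := Nat.findGreatest (fun j => 3 * mm j ≤ t) t with hj
  have hle : j0 + 1 ≤ t := by
    have := le_mm (j := j0 + 1) (by omega)
    omega
  have h1 : j0 + 1 ≤ j := Nat.le_findGreatest hle ht
  have h2 : 3 * mm j ≤ t := Nat.findGreatest_spec (P := fun j => 3 * mm j ≤ t) hle ht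
  have h3 : t < 3 * mm (j + 1) := by
    by_contra hcon
    push Not at hcon
    have h4 : j + 1 ≤ t := by
      have := le_mm (j := j + 1) (by omega)
      omega
    have := Nat.le_findGreatest (P := fun j => 3 * mm j ≤ t) h4 hcon
    omega
  obtain ⟨⟨G, hG1, hG2⟩, hp⟩ := hj0 j (by omega)
  obtain ⟨-, hp'⟩ := hj0 (j + 1) (by omega)
  obtain ⟨hj8, hP, hPsq, hPsq2, -, -, -, hm8, -⟩ := hp
  obtain ⟨-, -, hPsq', -⟩ := hp'
  obtain ⟨H, hH1, hH2⟩ := transfer G 3 (3 * mm j) hG1 (by omega) hG2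
  have hcard : Fintype.card (Fin (NN j) × Fin (j ^ 2)) = j ^ 2 * 2 ^ j := by
    rw [Fintype.card_prod, Fintype.card_fin, Fintype.card_fin, NN, mul_comm]
  refine ⟨Fintype.card (Fin (NN j) × Fin (j ^ 2)), ?_, H, hH1, by omega⟩
  rw [hcard]
  -- upper bound for t ^ 2
  have hAA : AA = 2 ^ 25 := rfl
  have ht2 : t ^ 2 ≤ 9 * 2 ^ 54 * j ^ 3 * 2 ^ j := by
    calc t ^ 2 ≤ (3 * mm (j + 1)) ^ 2 := Nat.pow_le_pow_left h3.le 2
      _ = 9 * (2 ^ 25 * (j + 1)) ^ 2 * PP (j + 1) ^ 2 := by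
          unfold mm
          rw [hAA]
          ring
      _ ≤ 9 * (2 ^ 25 * (j + 1)) ^ 2 * ((j + 1) * 2 ^ (j + 1)) := Nat.mul_le_mul_left _ hPsq'
      _ = 9 * 2 ^ 51 * (j + 1) ^ 3 * 2 ^ j := by ring
      _ ≤ 9 * 2 ^ 51 * (2 * j) ^ 3 * 2 ^ j := by gcongr; omega
      _ = 9 * 2 ^ 54 * j ^ 3 * 2 ^ j := by ring
  -- lower bound for log t
  have htP : 2 ^ j ≤ t ^ 2 := by
    have h5 : PP j ≤ t := by
      refine le_trans ?_ h2
      unfold mm
      rw [hAA]
      nlinarith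
    have h6 : 2 * 2 ^ j ≤ 2 * PP j ^ 2 := by
      refine le_trans ?_ hPsq2
      exact Nat.mul_le_mul_right _ (by omega)
    calc 2 ^ j ≤ PP j ^ 2 := by omega
      _ ≤ t ^ 2 := Nat.pow_le_pow_left h5 2
  have ht0 : 0 < t := by omega
  have hlogt : (j : ℝ) * Real.log 2 ≤ 2 * Real.log t := by
    have h7 : ((2 : ℝ) ^ j) ≤ (t : ℝ) ^ 2 := by exact_mod_cast htP
    have h8 := Real.log_le_log (by positivity) h7
    rw [Real.log_pow, Real.log_pow] at h8
    exact_mod_cast h8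
  have hj1 : (0 : ℝ) < (j : ℝ) := by
    have : 0 < j := by omega
    exact_mod_cast this
  have hlogt0 : 0 < Real.log t := by
    have : 0 < (j : ℝ) * Real.log 2 := by positivity
    linarith
  rw [div_le_iff₀ hlogt0, hc]
  have ht2' : (t : ℝ) ^ 2 ≤ 9 * 2 ^ 54 * (j : ℝ) ^ 3 * 2 ^ j := by exact_mod_cast ht2
  push_cast
  calc Real.log 2 / (9 * 2 ^ 55) * (t : ℝ) ^ 2
      ≤ Real.log 2 / (9 * 2 ^ 55) * (9 * 2 ^ 54 * (j : ℝ) ^ 3 * 2 ^ j) := by gcongr
    _ = (j : ℝ) ^ 2 * 2 ^ j * ((j : ℝ) * Real.log 2 / 2) := by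
        ring
    _ ≤ (j : ℝ) ^ 2 * 2 ^ j * Real.log t := by
        gcongr
        linarith

end Pool.Agent.Lib.MP_6383d0_co.Kim.H64
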