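import Mathlib
import Pool.Agent.Lib.MP_6383d0_co.Kim.H64.MAIN
import Pool.Agent.Lib.MP_6383d0_co.Kim.H64.NUMMAIN

/-!
# MP_6383d0_co / Kim: module RAMK (Spencer's exponent for all k)
-/

namespace Pool.Agent.Lib.MP_6383d0_co.Kim.H64

open Finset Filter

/-- exponent of the constant `D = 2 ^ dk` -/
def dk (k : ℕ) : ℕ := k.choose 2 + 2 * k + 6

/-- number of values of a bit -/
def Pk (k j : ℕ) : ℕ := 2 ^ (2 * (dk k + j))

/-- number of vertices -/
def Nk (k j : ℕ) : ℕ := 2 ^ (k * dk k + (k + 1) * j)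

/-- number of vertices of the sets that should not be independent -/
def mk (k j : ℕ) : ℕ := 8 * k ^ 2 * (2 * k + 2) * j * Pk k j

theorem Nk_Dk (k j : ℕ) : 2 ^ dk k * Nk k j = 2 ^ ((k + 1) * (dk k + j)) := by
  unfold Nk
  rw [← pow_add]
  congr 1
  ring

theorem two_mul_choose {k : ℕ} (hk : 3 ≤ k) : 2 * k.choose 2 = (k + 1) * (k - 2) + 2 := by
  obtain ⟨l, rfl⟩ := Nat.exists_eq_add_of_le hk
  have h1 : (3 + l).choose 2 * 2 = (3 + l) * (2 + l) := by
    rw [Nat.choose_two_right]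
    have h2 : 3 + l - 1 = 2 + l := by omega
    rw [h2]
    apply Nat.div_mul_cancel
    have h3 : (3 + l) * (2 + l) = (2 + l) * (2 + l + 1) := by ring
    rw [h3]
    exact (Nat.even_mul_succ_self _).two_dvd
  have h4 : 3 + l - 2 = 1 + l := by omega
  rw [h4, mul_comm, h1]
  ring

theorem Pk_pow {k j : ℕ} (hk : 3 ≤ k) :
    Pk k j ^ k.choose 2 = Pk k j * (2 ^ dk k * Nk k j) ^ (k - 2) := by
  rw [Nk_Dk]
  unfold Pk
  rw [← pow_mul, ← pow_mul, ← pow_add]
  congr 1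
  have h := two_mul_choose hk
  calc 2 * (dk k + j) * k.choose 2 = (dk k + j) * (2 * k.choose 2) := by ring
    _ = 2 * (dk k + j) + (k + 1) * (dk k + j) * (k - 2) := by
        rw [h]
        ring

theorem dk_big {k : ℕ} (hk : 3 ≤ k) : 48 * k ^ 2 * 2 ^ k.choose 2 ≤ (2 ^ dk k) ^ (k - 2) := by
  have h1 : 2 ^ dk k ≤ (2 ^ dk k) ^ (k - 2) := by
    calc 2 ^ dk k = (2 ^ dk k) ^ 1 := (pow_one _).symm
      _ ≤ (2 ^ dk k) ^ (k - 2) := Nat.pow_le_pow_right (by positivity) (by omega)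
  refine le_trans ?_ h1
  unfold dk
  rw [pow_add, pow_add, pow_mul]
  have h2 : k ≤ 2 ^ k := Nat.lt_two_pow_self.le
  have h3 : k ^ 2 ≤ (2 ^ 2) ^ k := by
    calc k ^ 2 ≤ (2 ^ k) ^ 2 := Nat.pow_le_pow_left h2 2
      _ = (2 ^ 2) ^ k := by rw [← pow_mul, ← pow_mul, mul_comm]
  calc 48 * k ^ 2 * 2 ^ k.choose 2 ≤ 2 ^ 6 * (2 ^ 2) ^ k * 2 ^ k.choose 2 := by
        gcongr
        norm_num
    _ = 2 ^ k.choose 2 * (2 ^ 2) ^ k * 2 ^ 6 := by ring

/-- The numerical estimates. -/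
theorem numk {k j : ℕ} (hk : 3 ≤ k) (hj : dk k ≤ j) :
    (((Nk k j).choose (mk k j) : ℕ) : ℝ) *
      ((2 : ℝ) ^ (k ^ 2 * ((2 * k + 2) * (j * mk k j))) *
        (1 - 1 / (2 * (Pk k j : ℝ))) ^ ((mk k j) ^ 2 / 2) +
        ((2 ^ (k.choose 2) * (mk k j) ^ 2 * (Nk k j) ^ (k - 2)).choose
          ((2 * k + 2) * (j * mk k j)) : ℝ) *
          (1 / (Pk k j : ℝ)) ^ (k.choose 2 * ((2 * k + 2) * (j * mk k j)))) < 1 := by
  have hP0 : 0 < Pk k j := by unfold Pk; positivity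
  have hd6 : 6 ≤ dk k := by unfold dk; omega
  have hj6 : 6 ≤ j := hd6.trans hj
  have hN0 : 0 < Nk k j := by unfold Nk; positivity
  have hNle : Nk k j ≤ 2 ^ ((2 * k + 1) * j) := by
    unfold Nk
    apply Nat.pow_le_pow_right (by norm_num)
    have : k * dk k ≤ k * j := Nat.mul_le_mul_left _ hj
    nlinarith
  set P := Pk k j with hP
  set m := mk k j with hm
  set N := Nk k j with hN
  set c := 2 * k + 2 with hc
  set q := j * m with hq
  have hmdef : m = 8 * k ^ 2 * c * j * P := rfl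
  have hm1 : 8 ≤ m := by
    rw [hmdef]
    have h1 : 1 ≤ k ^ 2 * c * j * P := Nat.mul_pos (by positivity) hP0
    calc 8 = 8 * 1 := rfl
      _ ≤ 8 * (k ^ 2 * c * j * P) := Nat.mul_le_mul_left _ h1
      _ = 8 * k ^ 2 * c * j * P := by ring
  have hq1 : 8 ≤ q := by
    rw [hq]
    nlinarith
  have hP' : (0 : ℝ) < (P : ℝ) := by exact_mod_cast hP0
  have hb0 : (0 : ℝ) ≤ 1 - 1 / (2 * (P : ℝ)) := by
    have : (1 : ℝ) ≤ P := by exact_mod_cast hP0
    rw [sub_nonneg, div_le_one (by positivity)]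
    linarith
  -- first term
  have hsq : m ^ 2 / 2 = (2 * P) * (2 * (k ^ 2 * (c * q))) := by
    have : m ^ 2 = 2 * ((2 * P) * (2 * (k ^ 2 * (c * q)))) := by
      rw [hq, sq]
      nth_rewrite 1 [hmdef]
      ring
    rw [this, Nat.mul_div_cancel_left _ (by norm_num)]
  have hcq : c * q ≤ k ^ 2 * (c * q) := Nat.le_mul_of_pos_left _ (by positivity)
  have h1 : (2 : ℝ) ^ (k ^ 2 * (c * q)) * (1 - 1 / (2 * (P : ℝ))) ^ (m ^ 2 / 2) ≤
      (1 / 2) ^ (c * q) := by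
    rw [hsq, pow_mul (1 - 1 / (2 * (P : ℝ))) (2 * P)]
    have hb1 : (0 : ℝ) ≤ (1 - 1 / (2 * (P : ℝ))) ^ (2 * P) := pow_nonneg hb0 _
    calc (2 : ℝ) ^ (k ^ 2 * (c * q)) *
          ((1 - 1 / (2 * (P : ℝ))) ^ (2 * P)) ^ (2 * (k ^ 2 * (c * q)))
        ≤ (2 : ℝ) ^ (k ^ 2 * (c * q)) * (3 / 8) ^ (2 * (k ^ 2 * (c * q))) := by
          gcongr
          exact one_sub_pow_le hP0
      _ = (9 / 32) ^ (k ^ 2 * (c * q)) := by
          rw [pow_mul (3 / 8 : ℝ) 2, ← mul_pow]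
          norm_num
      _ ≤ (1 / 2) ^ (k ^ 2 * (c * q)) := pow_le_pow_left₀ (by norm_num) (by norm_num) _
      _ ≤ (1 / 2) ^ (c * q) := pow_le_pow_of_le_one (by norm_num) (by norm_num) hcq
  -- second term
  have h2 : ((2 ^ (k.choose 2) * m ^ 2 * N ^ (k - 2)).choose (c * q) : ℝ) *
      (1 / (P : ℝ)) ^ (k.choose 2 * (c * q)) ≤ (1 / 2) ^ (c * q) := by
    rw [pow_mul (1 / (P : ℝ)) (k.choose 2)]
    have hcq0 : 0 < c * q := by positivity
    have h3 := choose (2 ^ (k.choose 2) * m ^ 2 * N ^ (k - 2)) (c * q) hcq0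
    calc ((2 ^ (k.choose 2) * m ^ 2 * N ^ (k - 2)).choose (c * q) : ℝ) *
          ((1 / (P : ℝ)) ^ k.choose 2) ^ (c * q)
        ≤ (Real.exp 1 * ((2 ^ (k.choose 2) * m ^ 2 * N ^ (k - 2) : ℕ) : ℝ) /
            ((c * q : ℕ) : ℝ)) ^ (c * q) * ((1 / (P : ℝ)) ^ k.choose 2) ^ (c * q) := by
          gcongr
      _ = ((Real.exp 1 * ((2 ^ (k.choose 2) * m ^ 2 * N ^ (k - 2) : ℕ) : ℝ) /
            ((c * q : ℕ) : ℝ)) * (1 / (P : ℝ)) ^ k.choose 2) ^ (c * q) := by
          rw [mul_pow]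
      _ ≤ (1 / 2) ^ (c * q) := by
          apply pow_le_pow_left₀ (by positivity)
          -- exact form
          have hA : (2 ^ (k.choose 2) * m ^ 2 * N ^ (k - 2)) * (48 * k ^ 2) ≤
              8 * k ^ 2 * (c * q) * P ^ k.choose 2 := by
            rw [hP, Pk_pow hk, ← hN, ← hP]
            have e1 : m ^ 2 = 8 * k ^ 2 * (c * q) * P := by
              rw [hq, sq]
              nth_rewrite 1 [hmdef]
              ring
            rw [e1, mul_pow]
            calc 2 ^ k.choose 2 * (8 * k ^ 2 * (c * q) * P) * N ^ (k - 2) * (48 * k ^ 2)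
                = (8 * k ^ 2 * (c * q)) * (P * N ^ (k - 2)) * (48 * k ^ 2 * 2 ^ k.choose 2) := by
                  ring
              _ ≤ (8 * k ^ 2 * (c * q)) * (P * N ^ (k - 2)) * ((2 ^ dk k) ^ (k - 2)) :=
                  Nat.mul_le_mul_left _ (dk_big hk)
              _ = 8 * k ^ 2 * (c * q) * (P * ((2 ^ dk k) ^ (k - 2) * N ^ (k - 2))) := by ring
          have hk0 : 0 < 8 * k ^ 2 := by positivity
          have hB : 6 * (2 ^ (k.choose 2) * m ^ 2 * N ^ (k - 2)) ≤ (c * q) * P ^ k.choose 2 := by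
            have : (8 * k ^ 2) * (6 * (2 ^ (k.choose 2) * m ^ 2 * N ^ (k - 2))) ≤
                (8 * k ^ 2) * ((c * q) * P ^ k.choose 2) := by
              calc _ = (2 ^ (k.choose 2) * m ^ 2 * N ^ (k - 2)) * (48 * k ^ 2) := by ring
                _ ≤ _ := hA
                _ = _ := by ring
            exact Nat.le_of_mul_le_mul_left this hk0
          have hB' : (6 : ℝ) * ((2 ^ (k.choose 2) * m ^ 2 * N ^ (k - 2) : ℕ) : ℝ) ≤
              ((c * q : ℕ) : ℝ) * (P : ℝ) ^ k.choose 2 := by exact_mod_cast hB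
          have hcq' : (0 : ℝ) < ((c * q : ℕ) : ℝ) := by exact_mod_cast hcq0
          have hPk : (0 : ℝ) < (P : ℝ) ^ k.choose 2 := by positivity
          rw [one_div_pow, mul_one_div, div_div, div_le_div_iff₀ (by positivity) (by norm_num)]
          have h0 : (0 : ℝ) ≤ ((2 ^ (k.choose 2) * m ^ 2 * N ^ (k - 2) : ℕ) : ℝ) :=
            Nat.cast_nonneg _
          have he : Real.exp 1 < 3 := lt_trans Real.exp_one_lt_d9 (by norm_num)
          nlinarith [mul_le_mul_of_nonneg_right he.le h0]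
  have h3 : ((N.choose m : ℕ) : ℝ) ≤ (2 : ℝ) ^ ((2 * k + 1) * q) := by
    have : N.choose m ≤ 2 ^ ((2 * k + 1) * q) := by
      calc N.choose m ≤ N ^ m := Nat.choose_le_pow _ _
        _ ≤ (2 ^ ((2 * k + 1) * j)) ^ m := Nat.pow_le_pow_left hNle m
        _ = 2 ^ ((2 * k + 1) * q) := by
            rw [hq, ← pow_mul]
            congr 1
            ring
    exact_mod_cast this
  have hcq2 : (2 * k + 1) * q + 2 ≤ c * q := by
    rw [hc]
    nlinarith
  calc ((N.choose m : ℕ) : ℝ) *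
      ((2 : ℝ) ^ (k ^ 2 * (c * q)) * (1 - 1 / (2 * (P : ℝ))) ^ (m ^ 2 / 2) +
        ((2 ^ (k.choose 2) * m ^ 2 * N ^ (k - 2)).choose (c * q) : ℝ) *
          (1 / (P : ℝ)) ^ (k.choose 2 * (c * q)))
      ≤ (2 : ℝ) ^ ((2 * k + 1) * q) * ((1 / 2) ^ (c * q) + (1 / 2) ^ (c * q)) := by
        apply mul_le_mul h3 (add_le_add h1 h2) _ (by positivity)
        positivity
    _ ≤ (2 : ℝ) ^ ((2 * k + 1) * q) * (2 * (1 / 2) ^ ((2 * k + 1) * q + 2)) := by
        gcongr 2 ^ ((2 * k + 1) * q) * ?_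
        have := pow_le_pow_of_le_one (by norm_num : (0 : ℝ) ≤ 1 / 2) (by norm_num) hcq2
        linarith
    _ = 1 / 2 := by
        rw [pow_add]
        have : (2 : ℝ) ^ ((2 * k + 1) * q) * (1 / 2) ^ ((2 * k + 1) * q) = 1 := by
          rw [← mul_pow]
          norm_num
        calc (2 : ℝ) ^ ((2 * k + 1) * q) * (2 * ((1 / 2) ^ ((2 * k + 1) * q) * (1 / 2) ^ 2))
            = ((2 : ℝ) ^ ((2 * k + 1) * q) * (1 / 2) ^ ((2 * k + 1) * q)) * (2 * (1 / 2) ^ 2) := by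
              ring
          _ = 1 / 2 := by
              rw [this]
              norm_num
    _ < 1 := by norm_num

/-- The graphs for a sequence of values. -/
theorem ramk_seq {k j : ℕ} (hk : 3 ≤ k) (hj : dk k ≤ j) :
    ∃ G : SimpleGraph (Fin (Nk k j)), G.CliqueFree k ∧ G.indepNum < mk k j := by
  classical
  have hP0 : 0 < Pk k j := by unfold Pk; positivity
  have hd6 : 6 ≤ dk k := by unfold dk; omega
  have hm8 : 8 ≤ mk k j := by
    unfold mk
    have h1 : 1 ≤ k ^ 2 * (2 * k + 2) * j * Pk k j :=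
      Nat.mul_pos (Nat.mul_pos (by positivity) (by omega)) hP0
    calc 8 = 8 * 1 := rfl
      _ ≤ 8 * (k ^ 2 * (2 * k + 2) * j * Pk k j) := Nat.mul_le_mul_left _ h1
      _ = 8 * k ^ 2 * (2 * k + 2) * j * Pk k j := by ring
  have hnum := numk hk hj
  set P := Pk k j with hP
  set m := mk k j with hm
  set N := Nk k j with hN
  set τ := (2 * k + 2) * (j * m) with hτ
  set h := k ^ 2 * τ with hh
  set E : Finset (Fin N) → (Fin N × Fin N → Fin P) → Prop := fun I b =>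
    (I.offDiag.filter (fun p => hit b (id p.1) (id p.2))).card ≤ h ∨
      ∃ 𝒮 : Finset (Finset (Fin N)), 𝒮.card = τ ∧
        (∀ T ∈ 𝒮, (Gr b).IsNClique k T ∧ 2 ≤ (T ∩ I.image id).card) ∧
        (∀ T ∈ 𝒮, ∀ T' ∈ 𝒮, T ≠ T' → (T ∩ T').card ≤ 1) with hE
  set B : ℝ := (2 : ℝ) ^ h * (1 - 1 / (2 * (P : ℝ))) ^ (m ^ 2 / 2) +
      ((2 ^ (k.choose 2) * m ^ 2 * N ^ (k - 2)).choose τ : ℝ) *
        (1 / (P : ℝ)) ^ (k.choose 2 * τ) with hB
  have hI : ∀ I ∈ powersetCard m (univ : Finset (Fin N)), Kim.pr P (E I) ≤ B := by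
    intro I hI
    have hIc := (mem_powersetCard.1 hI).2
    have hq : m ^ 2 / 2 ≤ I.offDiag.card := by
      rw [offDiag_card, hIc]
      have h1 : m ^ 2 = m * m := sq m
      have h2 : 8 * m ≤ m * m := Nat.mul_le_mul_right m hm8
      omega
    have := pr_event hP0 (by omega : 2 ≤ k) (Fin N) id I Function.injective_id.injOn I.offDiag
      (by
        intro p hp
        rw [mem_offDiag] at hp
        exact mem_product.2 ⟨hp.1, hp.2.1⟩) h τ (m ^ 2 / 2) hq
    rwa [hIc] at this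
  have hlt : Kim.pr P (fun b => ∃ I ∈ powersetCard m (univ : Finset (Fin N)), E I b) < 1 := by
    refine lt_of_le_of_lt ((pr_exists _ _).trans (sum_le_sum hI)) ?_
    rw [sum_const, card_powersetCard, card_univ, Fintype.card_fin, nsmul_eq_mul]
    exact hnum
  obtain ⟨b, hb⟩ := pr_exists_not hP0 _ hlt
  obtain ⟨F', 𝒯, hRem⟩ := rem k N (by omega) (Gr b)
  refine ⟨F', hRem.free, ?_⟩
  by_contra hcon
  push Not at hcon
  obtain ⟨s, hs⟩ := F'.exists_isNIndepSet_indepNum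
  obtain ⟨I, hIs, hIc⟩ := exists_subset_card_eq (s := s) (n := m) (by rw [hs.card_eq]; exact hcon)
  have hnot : ¬ E I b := fun hEI => hb ⟨I, mem_powersetCard.2 ⟨subset_univ _, hIc⟩, hEI⟩
  simp only [hE, not_or, not_le] at hnot
  obtain ⟨hn1, hn2⟩ := hnot
  have hkk : k * (k - 1) * τ ≤ h := by
    rw [hh, sq]
    exact Nat.mul_le_mul_right _ (Nat.mul_le_mul_left _ (by omega))
  obtain ⟨p, hp, hadj⟩ := maindet k N P τ (Fin N) id b F' 𝒯 (by omega) hRem I I.offDiag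
    Function.injective_id.injOn
    (by
      intro p hp
      rw [mem_offDiag] at hp
      exact mem_product.2 ⟨hp.1, hp.2.1⟩)
    (fun p hp => (mem_offDiag.1 hp).2.2) hn2 (by omega)
  obtain ⟨hp1, hp2, hp3⟩ := mem_offDiag.1 hp
  exact hs.isIndepSet (hIs hp1) (hIs hp2) hp3 hadj

theorem mk_mono (k : ℕ) : Monotone (mk k) := by
  intro i j hij
  unfold mk Pk
  exact Nat.mul_le_mul (Nat.mul_le_mul_left _ hij)
    (Nat.pow_le_pow_right (by norm_num) (by omega))

theorem le_mk {k : ℕ} (hk : 3 ≤ k) (j : ℕ) : j ≤ mk k j := by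
  unfold mk
  have hP0 : 0 < Pk k j := by unfold Pk; positivity
  have h1 : 1 ≤ 8 * k ^ 2 * (2 * k + 2) * Pk k j := Nat.mul_pos (by positivity) hP0
  calc j = 1 * j := (one_mul _).symm
    _ ≤ (8 * k ^ 2 * (2 * k + 2) * Pk k j) * j := Nat.mul_le_mul_right _ h1
    _ = 8 * k ^ 2 * (2 * k + 2) * j * Pk k j := by ring

theorem ramk : RAMK_S := by
  intro k hk
  set A : ℝ := 64 * (k : ℝ) ^ 2 * (2 * k + 2) with hA
  set e : ℝ := ((k : ℝ) + 1) / 2 with he
  have hk0 : (0 : ℝ) < k := by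
    have : 0 < k := by omega
    exact_mod_cast this
  have hA0 : 0 < A := by rw [hA]; positivity
  have he0 : 0 ≤ e := by rw [he]; positivity
  refine ⟨1 / (A ^ e * 2 ^ dk k), by positivity, ?_⟩
  rw [eventually_atTop]
  refine ⟨mk k (dk k), fun t ht => ?_⟩
  have hd6 : 6 ≤ dk k := by unfold dk; omega
  set j := Nat.findGreatest (fun j => mk k j ≤ t) t with hj
  have hle : dk k ≤ t := (le_mk hk _).trans ht
  have h1 : dk k ≤ j := Nat.le_findGreatest hle ht
  have h2 : mk k j ≤ t := Nat.findGreatest_spec (P := fun j => mk k j ≤ t) hle ht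
  have h3 : t < mk k (j + 1) := by
    by_contra hcon
    push Not at hcon
    have h4 : j + 1 ≤ t := (le_mk hk _).trans hcon
    have := Nat.le_findGreatest (P := fun j => mk k j ≤ t) h4 hcon
    omega
  obtain ⟨G, hG1, hG2⟩ := ramk_seq hk h1
  refine ⟨Nk k j, ?_, G, hG1, by omega⟩
  have hP0 : 0 < Pk k j := by unfold Pk; positivity
  have hj0 : 0 < j := by omega
  -- upper bound for t
  have ht1 : t ≤ 64 * k ^ 2 * (2 * k + 2) * j * Pk k j := by
    refine h3.le.trans ?_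
    unfold mk Pk
    have e1 : 2 ^ (2 * (dk k + (j + 1))) = 4 * 2 ^ (2 * (dk k + j)) := by
      have : 2 * (dk k + (j + 1)) = 2 * (dk k + j) + 2 := by ring
      rw [this, pow_add]
      ring
    rw [e1]
    calc 8 * k ^ 2 * (2 * k + 2) * (j + 1) * (4 * 2 ^ (2 * (dk k + j)))
        ≤ 8 * k ^ 2 * (2 * k + 2) * (2 * j) * (4 * 2 ^ (2 * (dk k + j))) := by
          gcongr
          omega
      _ = 64 * k ^ 2 * (2 * k + 2) * j * 2 ^ (2 * (dk k + j)) := by ring
  have ht1' : (t : ℝ) ≤ A * j * Pk k j := by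
    rw [hA]
    exact_mod_cast ht1
  -- lower bound for log t
  have ht0 : 0 < t := by omega
  have ht2 : 2 ^ (2 * j) ≤ t := by
    refine le_trans ?_ h2
    unfold mk
    calc 2 ^ (2 * j) ≤ Pk k j := by
          unfold Pk
          exact Nat.pow_le_pow_right (by norm_num) (by omega)
      _ ≤ (8 * k ^ 2 * (2 * k + 2) * j) * Pk k j := Nat.le_mul_of_pos_left _ (by positivity)
  have hlog : (j : ℝ) ≤ Real.log t := by
    have h5 : ((2 : ℝ) ^ (2 * j)) ≤ (t : ℝ) := by exact_mod_cast ht2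
    have h6 := Real.log_le_log (by positivity) h5
    rw [Real.log_pow] at h6
    push_cast at h6
    have h7 := Real.log_two_gt_d9
    have h8 : (0 : ℝ) < j := by exact_mod_cast hj0
    nlinarith
  have hj0' : (0 : ℝ) < (j : ℝ) := by exact_mod_cast hj0
  have hlog0 : 0 < Real.log t := by linarith
  have hPr : (0 : ℝ) < (Pk k j : ℝ) := by exact_mod_cast hP0
  have hquot : (t : ℝ) / Real.log t ≤ A * Pk k j := by
    rw [div_le_iff₀ hlog0]
    calc (t : ℝ) ≤ A * j * Pk k j := ht1'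
      _ = A * Pk k j * j := by ring
      _ ≤ A * Pk k j * Real.log t := by gcongr
  have hPe : (Pk k j : ℝ) ^ e = 2 ^ dk k * (Nk k j : ℝ) := by
    have h9 : (Pk k j : ℝ) = ((2 : ℝ) ^ (dk k + j)) ^ (2 : ℝ) := by
      unfold Pk
      push_cast
      rw [Real.rpow_two, ← pow_mul, mul_comm]
    have h10 : (2 : ℝ) * e = ((k + 1 : ℕ) : ℝ) := by
      rw [he]
      push_cast
      ring
    rw [h9, ← Real.rpow_mul (by positivity), h10, Real.rpow_natCast, ← pow_mul]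
    have h11 := Nk_Dk k j
    have h12 : ((2 : ℝ) ^ dk k * (Nk k j : ℝ)) = 2 ^ ((k + 1) * (dk k + j)) := by
      exact_mod_cast h11
    rw [h12, mul_comm]
  have hAe : 0 < A ^ e := Real.rpow_pos_of_pos hA0 _
  rw [div_mul_eq_mul_div, one_mul, div_le_iff₀ (by positivity)]
  calc ((t : ℝ) / Real.log t) ^ e ≤ (A * Pk k j) ^ e :=
        Real.rpow_le_rpow (by positivity) hquot he0
    _ = A ^ e * (2 ^ dk k * (Nk k j : ℝ)) := by
        rw [Real.mul_rpow hA0.le hPr.le, hPe]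
    _ = (Nk k j : ℝ) * (A ^ e * 2 ^ dk k) := by ring

end Pool.Agent.Lib.MP_6383d0_co.Kim.H64
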