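import Mathlib
import Pool.Agent.Lib.MP_6383d0_co.Kim.H64.LD
import Pool.Agent.Lib.MP_6383d0_co.Kim.H64.GAM

/-!
# MP_6383d0_co / Kim: module TAME
-/

namespace Pool.Agent.Lib.MP_6383d0_co.Kim.H64

open Finset Filter

theorem tame_rows {j : ℕ} (hj : 8 ≤ j) (hP : 0 < PP j) (h6 : 6 * NN j ≤ PP j * DD j)
    (h2 : 2 * j ≤ DD j) :
    Kim.pr (PP j) (fun b : Fin (NN j) × Fin (NN j) → Fin (PP j) =>
      ∃ z, DD j + 1 ≤ od b z univ) ≤ 1 / 64 := by
  classical
  have hP' : (0 : ℝ) < (PP j : ℝ) := by exact_mod_cast hP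
  set T := DD j + 1 with hT
  have hT0 : (0 : ℝ) < (T : ℝ) := by positivity
  have h := ld (NN j) (PP j) hP univ 1 T
  have hsub : Kim.pr (PP j) (fun b : Fin (NN j) × Fin (NN j) → Fin (PP j) =>
      ∃ z, T ≤ od b z univ) ≤
      Kim.pr (PP j) (fun b : Fin (NN j) × Fin (NN j) → Fin (PP j) =>
        1 ≤ (univ.filter (fun z => T ≤ od b z univ)).card) := by
    refine pr_mono fun b hb => ?_
    obtain ⟨z, hz⟩ := hb
    exact card_pos.2 ⟨z, mem_filter.2 ⟨mem_univ _, hz⟩⟩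
  refine hsub.trans (h.trans ?_)
  rw [card_univ, Fintype.card_fin, Nat.choose_one_right, pow_one]
  have h3 : ((NN j).choose T : ℝ) * (1 / (PP j : ℝ)) ^ T ≤ (1 / 2) ^ T := by
    calc ((NN j).choose T : ℝ) * (1 / (PP j : ℝ)) ^ T
        ≤ (Real.exp 1 * (NN j : ℕ) / T) ^ T * (1 / (PP j : ℝ)) ^ T := by
          gcongr
          exact choose (NN j) T (by omega)
      _ = (Real.exp 1 * (NN j : ℕ) / (T * PP j)) ^ T := by
          rw [← mul_pow]
          congr 1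
          field_simp
      _ ≤ (1 / 2) ^ T := by
          apply pow_le_pow_left₀ (by positivity)
          rw [div_le_div_iff₀ (by positivity) (by norm_num)]
          have h4 : (6 : ℝ) * (NN j : ℕ) ≤ (PP j : ℝ) * (DD j : ℝ) := by exact_mod_cast h6
          have h5 : (T : ℝ) = DD j + 1 := by
            rw [hT]
            push_cast
            ring
          have h6' : (0 : ℝ) ≤ ((NN j : ℕ) : ℝ) := by positivity
          rw [h5]
          nlinarith [exp_one_lt]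
  have hN : ((NN j : ℕ) : ℝ) = 2 ^ j := by
    unfold NN
    push_cast
    rfl
  calc ((NN j : ℕ) : ℝ) * (((NN j).choose T : ℝ) * (1 / (PP j : ℝ)) ^ T)
      ≤ (2 : ℝ) ^ j * (1 / 2) ^ T := by
        rw [← hN]
        gcongr
    _ ≤ (2 : ℝ) ^ j * (1 / 2) ^ (j + 8) := by
        gcongr 2 ^ j * ?_
        exact pow_le_pow_of_le_one (by norm_num) (by norm_num) (by omega)
    _ ≤ 1 / 64 := by
        rw [pow_add, ← mul_assoc, ← mul_pow]
        norm_num

theorem tame (hPa : PARA_S) (hM : NUMMID_S) (hH : NUMHIGH_S) : TAME_S := by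
  classical
  unfold TAME_S
  filter_upwards [hPa, hM, hH, ev_pow 4 2] with j hPj hMj hHj hev
  obtain ⟨hj8, hP, hPsq, -, hs1, hDs, hmN, hm8, hsm, hDP, -, h6N, h2j⟩ := hPj
  have hsm' : ss j ≤ mm j := by
    have : 1 ≤ 48 * j ^ 2 := by nlinarith
    calc ss j = 1 * ss j := (one_mul _).symm
      _ ≤ 48 * j ^ 2 * ss j := Nat.mul_le_mul_right _ this
      _ ≤ mm j := hsm
  set Ev : ℕ → ℕ → Finset (Fin (NN j)) → (Fin (NN j) × Fin (NN j) → Fin (PP j)) → Prop :=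
    fun s i Y b => 1 ≤ i ∧ 11 * s ≤ 2 ^ i * PP j ∧
      qq j s (2 ^ i) ≤ (univ.filter (fun z => 2 ^ i ≤ od b z Y)).card with hEv
  have hsub : Kim.pr (PP j) (fun b : Fin (NN j) × Fin (NN j) → Fin (PP j) => ¬ Tame j b) ≤
      Kim.pr (PP j) (fun b : Fin (NN j) × Fin (NN j) → Fin (PP j) =>
        (∃ z, DD j + 1 ≤ od b z univ) ∨
        ∃ q ∈ (Icc (ss j) (mm j)) ×ˢ range (j + 1),
          ∃ Y ∈ powersetCard q.1 (univ : Finset (Fin (NN j))), Ev q.1 q.2 Y b) := by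
    refine pr_mono fun b hb => ?_
    unfold Tame at hb
    rw [not_and_or] at hb
    rcases hb with hb | hb
    · push Not at hb
      obtain ⟨z, hz⟩ := hb
      exact Or.inl ⟨z, hz⟩
    · push Not at hb
      obtain ⟨Y, hY1, hY2, i, hi1, hi2, hi3, hi4⟩ := hb
      refine Or.inr ⟨(Y.card, i), mem_product.2 ⟨mem_Icc.2 ⟨hY1, hY2⟩, mem_range.2 ?_⟩, Y,
        mem_powersetCard.2 ⟨subset_univ _, rfl⟩, hi1, hi3, hi4⟩
      have h1 : 2 ^ i ≤ 2 ^ j := by
        calc 2 ^ i ≤ DD j := hi2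
          _ ≤ 49152 * DD j := by omega
          _ ≤ ss j := hDs
          _ ≤ mm j := hsm'
          _ ≤ 2 ^ j := hmN
      have := (Nat.pow_le_pow_iff_right (by norm_num : 1 < 2)).1 h1
      exact Nat.lt_succ_of_le this
  refine hsub.trans ((pr_or _ _).trans ?_)
  have h1 := tame_rows hj8 hP h6N h2j
  have h2 : ∀ q ∈ (Icc (ss j) (mm j)) ×ˢ range (j + 1),
      Kim.pr (PP j) (fun b : Fin (NN j) × Fin (NN j) → Fin (PP j) =>
        ∃ Y ∈ powersetCard q.1 (univ : Finset (Fin (NN j))), Ev q.1 q.2 Y b) ≤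
        (1 / 2) ^ (3 * j) := by
    rintro ⟨s, i⟩ hq
    obtain ⟨hs, -⟩ := mem_product.1 hq
    obtain ⟨hs1', hs2'⟩ := mem_Icc.1 hs
    simp only at hs1' hs2' ⊢
    refine (pr_exists _ _).trans ?_
    by_cases hcond : 1 ≤ i ∧ 11 * s ≤ 2 ^ i * PP j
    · obtain ⟨hi, h11⟩ := hcond
      have hT2 : 2 ≤ 2 ^ i := by
        calc 2 = 2 ^ 1 := by norm_num
          _ ≤ 2 ^ i := Nat.pow_le_pow_right (by norm_num) hi
      have hY : ∀ Y ∈ powersetCard s (univ : Finset (Fin (NN j))),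
          Kim.pr (PP j) (Ev s i Y) ≤ ((NN j).choose (qq j s (2 ^ i)) : ℝ) *
            ((s.choose (2 ^ i) : ℝ) * (1 / (PP j : ℝ)) ^ (2 ^ i)) ^ (qq j s (2 ^ i)) := by
        intro Y hY
        have hYc := (mem_powersetCard.1 hY).2
        refine (pr_mono (fun b hb => hb.2.2)).trans ?_
        have := ld (NN j) (PP j) hP Y (qq j s (2 ^ i)) (2 ^ i)
        rwa [hYc] at this
      refine (sum_le_sum hY).trans ?_
      rw [sum_const, card_powersetCard, card_univ, Fintype.card_fin, nsmul_eq_mul]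
      by_cases hmid : 512 * (2 ^ i) ^ 3 * j ≤ s
      · exact hMj s (2 ^ i) (hs1.trans hs1') hT2 h11 hmid
      · exact hHj s (2 ^ i) hs1' hs2' hT2 (not_le.1 hmid)
    · have hY : ∀ Y ∈ powersetCard s (univ : Finset (Fin (NN j))),
          Kim.pr (PP j) (Ev s i Y) ≤ 0 := by
        intro Y _
        rw [← pr_false (α := Fin (NN j) × Fin (NN j)) (P := PP j)]
        exact pr_mono (fun b hb => hcond ⟨hb.1, hb.2.1⟩)
      refine (sum_le_sum hY).trans ?_
      rw [sum_const_zero]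
      positivity
  have h3 := (pr_exists ((Icc (ss j) (mm j)) ×ˢ range (j + 1))
    (fun q (b : Fin (NN j) × Fin (NN j) → Fin (PP j)) =>
      ∃ Y ∈ powersetCard q.1 (univ : Finset (Fin (NN j))), Ev q.1 q.2 Y b)).trans
    (sum_le_sum h2)
  rw [sum_const, card_product, Nat.card_Icc, card_range, nsmul_eq_mul] at h3
  have h4 : (((mm j + 1 - ss j) * (j + 1) : ℕ) : ℝ) ≤ ((2 ^ j * 2 ^ j : ℕ) : ℝ) := by
    have h5 : mm j + 1 - ss j ≤ 2 ^ j := by omega
    have h6 : j + 1 ≤ 2 ^ j := by nlinarith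
    exact_mod_cast Nat.mul_le_mul h5 h6
  have h5 : ((2 ^ j * 2 ^ j : ℕ) : ℝ) * (1 / 2) ^ (3 * j) ≤ 1 / 64 := by
    have : ((2 ^ j * 2 ^ j : ℕ) : ℝ) * (1 / 2) ^ (3 * j) = (1 / 2) ^ j := by
      push_cast
      rw [pow_mul, ← mul_pow, ← mul_pow]
      norm_num
    rw [this]
    calc ((1 : ℝ) / 2) ^ j ≤ (1 / 2) ^ 8 :=
          pow_le_pow_of_le_one (by norm_num) (by norm_num) hj8
      _ ≤ 1 / 64 := by norm_num
  have h6 : (((mm j + 1 - ss j) * (j + 1) : ℕ) : ℝ) * (1 / 2) ^ (3 * j) ≤ 1 / 64 := by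
    refine le_trans ?_ h5
    gcongr
  linarith

end Pool.Agent.Lib.MP_6383d0_co.Kim.H64
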