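import Mathlib
import Pool.Agent.Lib.MP_6383d0_co.Kim.H64.KIM
import Pool.Agent.Lib.MP_6383d0_co.Kim.H64.TAME
import Pool.Agent.Lib.MP_6383d0_co.Kim.H64.PARA
import Pool.Agent.Lib.MP_6383d0_co.Kim.H64.NUM
import Pool.Agent.Lib.MP_6383d0_co.Kim.H64.NUMMAIN
import Pool.Agent.Lib.MP_6383d0_co.Kim.H64.MAIN
import Pool.Agent.Lib.MP_6383d0_co.Kim.H64.GAM
import Pool.Agent.Lib.MP_6383d0_co.Kim.H64.RAM
import Pool.Agent.Lib.MP_6383d0_co.Kim.H81.Det
import Pool.Agent.Lib.MP_6383d0_co.Kim.H81.Layer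

/-!
# MP_6383d0_co / Kim: Kim's theorem
-/

namespace Pool.Agent.Lib.MP_6383d0_co.Kim.H64

theorem kim_thm : KIM_S :=
  kim (tame para nummid numhigh) (H81.det para) (main (H81.layer para) nummain para) (gam para)
    para

/-- Kim's theorem. -/
theorem ram_thm : RAM_S := ram kim_thm

end Pool.Agent.Lib.MP_6383d0_co.Kim.H64
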